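import Pool.Agent.Lib.Pe46137A.Step

/-!
# The classes `Cls a k l` are easy  (MODULE Pe46137A.ClsEasy, about 0.6 h)

Induction.  `Cls a 0 0` is empty (any definable relation works, e.g. `Def2.eq`).
`Cls a (k + 1) l` is literally `Easy.fork` applied to `Cls a k l`.
`Cls a 0 (l + 1)`: reversal.  If `Easy C` then `Easy fun V E => C V (fun x y => E y x)`.
Apply `Easy.fork` to `C' V E = Cls a 0 l V (fun x y => E y x)` and reverse again.
-/

namespace Pool.Agent.Lib.Pe46137A

open Pool.Agent.Lib.Pe46137h7

theorem reach_flip {V : Type} {E : V → V → Prop} {s t : V} (h : Reach E s t) :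
    Reach (fun x y => E y x) t s := by
  induction h with
  | refl => exact .refl
  | tail _ h1 ih => exact .head h1 ih

/-- Reversal of a class. -/
theorem Easy.rev {C : ∀ V : Type, (V → V → Prop) → Prop} (hC : Easy C) :
    Easy fun V E => C V fun x y => E y x := by
  obtain ⟨P, h1, h2⟩ := hC
  refine ⟨fun V E s t => P V (fun x y => E y x) t s, ?_, ?_⟩
  · have hQ : DefN 3 fun _ E a => E (a 2) (a 1) := DefN.of2 Def2.arc 2 1
    have h4 : DefN 3 fun V E a => P V (fun x y => E y x) (a 1) (a 2) :=
      DefN.sub (Q := fun _ E _ x y => E y x) h1 hQ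
    have h5 : DefN 2 fun V E a => P V (fun x y => E y x) (a 1) (a 0) := h4.rename ![0, 1, 0]
    exact DefN.to2 h5
  · intro V _ E hE s t
    exact (h2 V _ hE t s).trans ⟨fun h => reach_flip h, fun h => reach_flip h⟩

theorem Easy.mono {C D : ∀ V : Type, (V → V → Prop) → Prop} (hC : Easy C)
    (h : ∀ V E, D V E → C V E) : Easy D := by
  obtain ⟨P, h1, h2⟩ := hC
  exact ⟨P, h1, fun V _ E hD => h2 V E (h V E hD)⟩

theorem acyclic_flip {V : Type} {E : V → V → Prop} (h : Acyclic E) :
    Acyclic (fun x y => E y x) := by
  intro v hv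
  refine h v ?_
  have := Relation.transGen_swap.1 (show Relation.TransGen (Function.swap E) v v from hv)
  exact this

theorem cut_flip {n : ℕ} {V : Type} (E : V → V → Prop) (c : Fin n → V) :
    (fun x y => Cut (fun x y => E y x) c y x) = Cut E c := by
  funext x y
  have ht : ∀ v, Touch (fun x y => E y x) c v ↔ Touch E c v := by
    intro v
    refine exists_congr fun i => ?_
    tauto
  simp only [Cut, ht]
  apply propext
  tauto

theorem easy_cls {a : ℕ} (ha : 1 ≤ a) (k l : ℕ) : Easy (Cls a k l) := by
  induction k with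
  | zero =>
    induction l with
    | zero =>
      refine ⟨_, Def2.eq, fun V _ E h => ?_⟩
      simp only [Cls] at h
    | succ l ih =>
      have h1 := (Easy.fork ih.rev ha).rev
      refine h1.mono fun V E h => ?_
      simp only [Cls] at h
      refine ⟨acyclic_flip h.1, fun c hc => ?_⟩
      have h2 := h.2 c hc
      rw [← cut_flip E c] at h2
      exact h2
  | succ k ih =>
    refine (Easy.fork ih ha).mono fun V E h => ?_
    simp only [Cls] at h
    exact h

end Pool.Agent.Lib.Pe46137A
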