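import Pool.Agent.Lib.Pe46137h7.DefN
import Pool.Agent.Lib.Pe46137h7.Kings
import Pool.Agent.Lib.Pe46137h7.MonoDefs

/-!
# One forbidden induced subdigraph, acyclic digraphs: definitions
-/

namespace Pool.Agent.Lib.Pe46137A

open Pool.Agent.Lib.Pe46137h7

/-- There is no closed walk with at least one arc. -/
def Acyclic {V : Type} (E : V → V → Prop) : Prop := ∀ v, ¬ Relation.TransGen E v v

/-- The tuple `c` is an induced copy of the digraph `K` in `E`. -/
def IsCopy {n : ℕ} (K : Fin n → Fin n → Prop) {V : Type} (E : V → V → Prop)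
    (c : Fin n → V) : Prop :=
  Function.Injective c ∧ ∀ i j, i ≠ j → (E (c i) (c j) ↔ K i j)

/-- The vertex `v` belongs to the tuple `c` or is adjacent to one of its members. -/
def Touch {n : ℕ} {V : Type} (E : V → V → Prop) (c : Fin n → V) (v : V) : Prop :=
  ∃ i, v = c i ∨ E v (c i) ∨ E (c i) v

/-- The digraph `E` without the closed neighbourhood of the tuple `c`. -/
def Cut {n : ℕ} {V : Type} (E : V → V → Prop) (c : Fin n → V) (x y : V) : Prop :=
  E x y ∧ ¬ Touch E c x ∧ ¬ Touch E c y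

/-- The fork with legs of length `a`: two directed paths `0 → 1 → ⋯ → a` and
`0 → a + 1 → ⋯ → 2 a` with common origin. -/
def Fork (a : ℕ) (i j : Fin (2 * a + 1)) : Prop :=
  (j.val = i.val + 1 ∧ i.val ≠ a) ∨ (i.val = 0 ∧ j.val = a + 1)

/-- On the finite digraphs of the class `C`, reachability is expressed by one formula of
first-order logic with symmetric transitive closure. -/
def Easy (C : ∀ V : Type, (V → V → Prop) → Prop) : Prop :=
  ∃ P : ∀ V : Type, (V → V → Prop) → V → V → Prop, Def2 P ∧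
    ∀ (V : Type) [Finite V] (E : V → V → Prop), C V E → ∀ s t, P V E s t ↔ Reach E s t

/-- The sequence `q` starts at `u`, follows arcs up to index `D`, and its vertex with index
`i ≤ D` is at distance `i` from `u`. -/
def Geo {V : Type} (E : V → V → Prop) (u : V) (D : ℕ) (q : ℕ → V) : Prop :=
  q 0 = u ∧ (∀ i < D, E (q i) (q (i + 1))) ∧ ∀ i ≤ D, ∀ k, Within E k u (q i) → i ≤ k

/-- From `q m` one reaches some vertex `r j`, `1 ≤ j ≤ m + a`, by at most `a + 1` arcs. -/
def Dom {V : Type} (E : V → V → Prop) (a m : ℕ) (q r : ℕ → V) : Prop :=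
  ∃ j, 1 ≤ j ∧ j ≤ m + a ∧ Within E (a + 1) (q m) (r j)

/-- Infinitely many two-way infinite paths directed away from a centre (first component `true`)
and infinitely many directed towards a centre. -/
def Zig (x y : Bool × ℕ × ℤ) : Prop :=
  x.1 = y.1 ∧ x.2.1 = y.2.1 ∧
    ((x.1 = true ∧ ((0 ≤ x.2.2 ∧ y.2.2 = x.2.2 + 1) ∨ (x.2.2 ≤ 0 ∧ y.2.2 = x.2.2 - 1))) ∨
      (x.1 = false ∧ ((0 ≤ y.2.2 ∧ x.2.2 = y.2.2 + 1) ∨ (y.2.2 ≤ 0 ∧ x.2.2 = y.2.2 - 1))))

/-- Disjoint union of `k` forks and `l` reversed forks. -/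
def Multi (a k l : ℕ) (x y : (Fin k ⊕ Fin l) × Fin (2 * a + 1)) : Prop :=
  x.1 = y.1 ∧ ((x.1.isLeft = true ∧ Fork a x.2 y.2) ∨ (x.1.isRight = true ∧ Fork a y.2 x.2))

/-- Acyclic digraphs without `k` forks and `l` reversed forks that are pairwise disjoint and
non-adjacent, in a recursive form. -/
def Cls (a : ℕ) : ℕ → ℕ → ∀ V : Type, (V → V → Prop) → Prop
  | 0, 0, _, _ => False
  | 0, l + 1, V, E => Acyclic E ∧
      ∀ c : Fin (2 * a + 1) → V, IsCopy (Fork a) (fun x y => E y x) c → Cls a 0 l V (Cut E c)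
  | k + 1, l, V, E => Acyclic E ∧
      ∀ c : Fin (2 * a + 1) → V, IsCopy (Fork a) E c → Cls a k l V (Cut E c)

end Pool.Agent.Lib.Pe46137A
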