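import Pool.Agent.Lib.Pe46137A.Defs

/-!
# Outside `Cls a k l` there are `k` forks and `l` reversed forks  (MODULE Pe46137A.Nest, 1.0 h)

Induction following the recursion of `Cls` (first on `k`, with `l` fixed; base `k = 0` by
induction on `l`).  `Cls a 0 0` fails: the index type is empty, take the empty function.
`¬ Cls a (k + 1) l V E` with `Acyclic E`: there is an induced fork `c` in `E` with
`¬ Cls a k l V (Cut E c)`; `Cut E c` is acyclic (sub-relation of `E`); the induction hypothesis
gives `f` for `k, l` in `Cut E c`.  Every vertex `f x` has an arc of `Cut E c` (since `a ≥ 1`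
every vertex of a fork has an arc: `0 → 1`, `i → i + 1` or `i - 1 → i`, `0 → a + 1`), so it is
not touched by `c`: it differs from all `c i` and is not adjacent to them in `E`; and between
untouched vertices `Cut E c` and `E` agree.  Put the new fork at index `0` (`Fin.cons`-like
case distinction on `Sum.inl 0`, `Sum.inl (i.succ)`, `Sum.inr j`).
Same for `¬ Cls a 0 (l + 1) V E` with the reversed fork at `Sum.inr 0`.
-/

namespace Pool.Agent.Lib.Pe46137A

open Pool.Agent.Lib.Pe46137h7

namespace NestAux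

/-- The kind of a copy. -/
def kind (a : ℕ) {k l : ℕ} : Fin k ⊕ Fin l → Fin (2 * a + 1) → Fin (2 * a + 1) → Prop
  | Sum.inl _ => Fork a
  | Sum.inr _ => fun i j => Fork a j i

theorem multi_iff {a k l : ℕ} (x y : (Fin k ⊕ Fin l) × Fin (2 * a + 1)) :
    Multi a k l x y ↔ x.1 = y.1 ∧ kind a x.1 x.2 y.2 := by
  obtain ⟨i, t⟩ := x
  unfold Multi
  rcases i with i | i <;> simp [kind]

theorem has_arc {a : ℕ} (ha : 1 ≤ a) (t : Fin (2 * a + 1)) :
    ∃ s, s ≠ t ∧ (Fork a t s ∨ Fork a s t) := by
  by_cases h0 : t.val = 0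
  · refine ⟨⟨1, by omega⟩, ?_, Or.inl (Or.inl ⟨?_, ?_⟩)⟩
    · intro h
      have := congrArg Fin.val h
      simp only at this
      omega
    · simp only; omega
    · omega
  · by_cases h1 : t.val = a + 1
    · refine ⟨⟨0, by omega⟩, ?_, Or.inr (Or.inr ⟨rfl, h1⟩)⟩
      intro h
      have := congrArg Fin.val h
      simp only at this
      omega
    · have ht := t.2
      refine ⟨⟨t.val - 1, by omega⟩, ?_, Or.inr (Or.inl ⟨?_, ?_⟩)⟩
      · intro h
        have := congrArg Fin.val h
        simp only at this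
        omega
      · simp only; omega
      · simp only; omega

theorem kind_arc {a k l : ℕ} (ha : 1 ≤ a) (i : Fin k ⊕ Fin l) (t : Fin (2 * a + 1)) :
    ∃ s, s ≠ t ∧ (kind a i t s ∨ kind a i s t) := by
  obtain ⟨s, hs, h⟩ := has_arc ha t
  refine ⟨s, hs, ?_⟩
  rcases i with i | i
  · exact h
  · exact h.symm

/-- The new function. -/
def glue {I V : Type} {m : ℕ} (c : Fin m → V) (f : I × Fin m → V) : Option I × Fin m → V
  | (none, t) => c t
  | (some i, t) => f (i, t)

/-- The new kinds. -/
def glueK {I : Type} {m : ℕ} (K : Fin m → Fin m → Prop) (M : I → Fin m → Fin m → Prop) :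
    Option I → Fin m → Fin m → Prop
  | none => K
  | some i => M i

theorem ext {I V : Type} {m : ℕ} {E : V → V → Prop} {c : Fin m → V} {K : Fin m → Fin m → Prop}
    (hc : IsCopy K E c) {M : I → Fin m → Fin m → Prop}
    (hM : ∀ i t, ∃ s, s ≠ t ∧ (M i t s ∨ M i s t)) {f : I × Fin m → V}
    (hf : Function.Injective f)
    (hfE : ∀ x y, x ≠ y → (Cut E c (f x) (f y) ↔ x.1 = y.1 ∧ M x.1 x.2 y.2)) :
    Function.Injective (glue c f) ∧ ∀ x y, x ≠ y →
      (E (glue c f x) (glue c f y) ↔ x.1 = y.1 ∧ glueK K M x.1 x.2 y.2) := by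
  have hu : ∀ x, ¬ Touch E c (f x) := by
    rintro ⟨i, t⟩
    obtain ⟨s, hs, h⟩ := hM i t
    have hne : ((i, t) : I × Fin m) ≠ (i, s) := by
      intro h'
      exact hs (Prod.mk.inj h').2.symm
    rcases h with h | h
    · exact ((hfE (i, t) (i, s) hne).2 ⟨rfl, h⟩).2.1
    · exact ((hfE (i, s) (i, t) hne.symm).2 ⟨rfl, h⟩).2.2
  constructor
  · rintro ⟨i, t⟩ ⟨j, s⟩ h
    rcases i with _ | i <;> rcases j with _ | j
    · rw [hc.1 (h : c t = c s)]
    · exact absurd ⟨t, Or.inl (h : c t = f (j, s)).symm⟩ (hu (j, s))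
    · exact absurd ⟨s, Or.inl (h : f (i, t) = c s)⟩ (hu (i, t))
    · have := hf (h : f (i, t) = f (j, s))
      rw [Prod.mk.injEq] at this
      rw [this.1, this.2]
  · rintro ⟨i, t⟩ ⟨j, s⟩ hne
    rcases i with _ | i <;> rcases j with _ | j
    · have hts : t ≠ s := fun h => hne (by rw [h])
      simp only [glue, glueK, true_and]
      exact hc.2 t s hts
    · simp only [glue, glueK, reduceCtorEq, false_and, iff_false]
      intro h
      exact hu (j, s) ⟨t, Or.inr (Or.inr h)⟩
    · simp only [glue, glueK, reduceCtorEq, false_and, iff_false]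
      intro h
      exact hu (i, t) ⟨s, Or.inr (Or.inl h)⟩
    · have hne' : ((i, t) : I × Fin m) ≠ (j, s) := by
        intro h'
        rw [Prod.mk.injEq] at h'
        exact hne (by rw [h'.1, h'.2])
      simp only [glue, glueK, Option.some.injEq]
      rw [← hfE (i, t) (j, s) hne']
      exact ⟨fun h => ⟨h, hu _, hu _⟩, fun h => h.1⟩

theorem acyclic_cut {V : Type} {E : V → V → Prop} {m : ℕ} (hE : Acyclic E) (c : Fin m → V) :
    Acyclic (Cut E c) := by
  intro v h
  have hle : Cut E c ≤ E := fun _ _ h => h.1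
  exact hE v (Relation.TransGen.mono hle v v h)

/-- The renaming of the indices, forks. -/
def ren1 {k l : ℕ} : Fin (k + 1) ⊕ Fin l → Option (Fin k ⊕ Fin l)
  | Sum.inl i => Fin.cases none (fun i => some (Sum.inl i)) i
  | Sum.inr j => some (Sum.inr j)

/-- The renaming of the indices, reversed forks. -/
def ren2 {k l : ℕ} : Fin k ⊕ Fin (l + 1) → Option (Fin k ⊕ Fin l)
  | Sum.inl i => some (Sum.inl i)
  | Sum.inr j => Fin.cases none (fun i => some (Sum.inr i)) j

theorem ren1_inj {k l : ℕ} : Function.Injective (ren1 (k := k) (l := l)) := by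
  intro x y h
  rcases x with x | x <;> rcases y with y | y
  · refine Fin.cases ?_ (fun x => ?_) x h
    · refine Fin.cases ?_ (fun y => ?_) y
      · intro _; rfl
      · intro h; simp [ren1] at h
    · refine Fin.cases ?_ (fun y => ?_) y
      · intro h; simp [ren1] at h
      · intro h
        simp [ren1] at h
        rw [h]
  · refine Fin.cases ?_ (fun x => ?_) x h
    · intro h; simp [ren1] at h
    · intro h; simp [ren1] at h
  · refine Fin.cases ?_ (fun y => ?_) y h
    · intro h; simp [ren1] at h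
    · intro h; simp [ren1] at h
  · simp [ren1] at h
    rw [h]

theorem ren2_inj {k l : ℕ} : Function.Injective (ren2 (k := k) (l := l)) := by
  intro x y h
  rcases x with x | x <;> rcases y with y | y
  · simp [ren2] at h
    rw [h]
  · refine Fin.cases ?_ (fun y => ?_) y h
    · intro h; simp [ren2] at h
    · intro h; simp [ren2] at h
  · refine Fin.cases ?_ (fun x => ?_) x h
    · intro h; simp [ren2] at h
    · intro h; simp [ren2] at h
  · refine Fin.cases ?_ (fun x => ?_) x h
    · refine Fin.cases ?_ (fun y => ?_) y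
      · intro _; rfl
      · intro h; simp [ren2] at h
    · refine Fin.cases ?_ (fun y => ?_) y
      · intro h; simp [ren2] at h
      · intro h
        simp [ren2] at h
        rw [h]

theorem ren1_kind {a k l : ℕ} (i : Fin (k + 1) ⊕ Fin l) :
    glueK (Fork a) (kind a (k := k) (l := l)) (ren1 i) = kind a i := by
  rcases i with i | i
  · refine Fin.cases ?_ (fun i => ?_) i
    · rfl
    · rfl
  · rfl

theorem ren2_kind {a k l : ℕ} (i : Fin k ⊕ Fin (l + 1)) :
    glueK (fun i j => Fork a j i) (kind a (k := k) (l := l)) (ren2 i) = kind a i := by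
  rcases i with i | i
  · rfl
  · refine Fin.cases ?_ (fun i => ?_) i
    · rfl
    · rfl

theorem rename {a k l k' l' : ℕ} {V : Type} {E : V → V → Prop}
    {K : Fin (2 * a + 1) → Fin (2 * a + 1) → Prop}
    {r : Fin k' ⊕ Fin l' → Option (Fin k ⊕ Fin l)} (hr : Function.Injective r)
    (hk : ∀ i, glueK K (kind a (k := k) (l := l)) (r i) = kind a i)
    {g : Option (Fin k ⊕ Fin l) × Fin (2 * a + 1) → V}
    (hg : Function.Injective g ∧ ∀ x y, x ≠ y →
      (E (g x) (g y) ↔ x.1 = y.1 ∧ glueK K (kind a) x.1 x.2 y.2)) :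
    ∃ f : (Fin k' ⊕ Fin l') × Fin (2 * a + 1) → V, Function.Injective f ∧
      ∀ x y, x ≠ y → (E (f x) (f y) ↔ Multi a k' l' x y) := by
  have hinj : Function.Injective (fun x : (Fin k' ⊕ Fin l') × Fin (2 * a + 1) => (r x.1, x.2)) := by
    rintro ⟨i, t⟩ ⟨j, s⟩ h
    simp only [Prod.mk.injEq] at h
    rw [hr h.1, h.2]
  refine ⟨fun x => g (r x.1, x.2), hg.1.comp hinj, fun x y hne => ?_⟩
  rw [multi_iff]
  have h1 := hg.2 (r x.1, x.2) (r y.1, y.2) (fun h => hne (hinj h))
  simp only [hk] at h1
  rw [h1, hr.eq_iff]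

end NestAux

open NestAux

theorem multi_of_not_cls {a : ℕ} (ha : 1 ≤ a) (k l : ℕ) {V : Type} {E : V → V → Prop}
    (hE : Acyclic E) (h : ¬ Cls a k l V E) :
    ∃ f : (Fin k ⊕ Fin l) × Fin (2 * a + 1) → V, Function.Injective f ∧
      ∀ x y, x ≠ y → (E (f x) (f y) ↔ Multi a k l x y) := by
  induction k generalizing E with
  | zero =>
    induction l generalizing E with
    | zero =>
      refine ⟨fun x => isEmptyElim x.1, ?_, ?_⟩
      · rintro ⟨i, t⟩
        exact isEmptyElim i
      · rintro ⟨i, t⟩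
        exact isEmptyElim i
    | succ l ih =>
      rw [Cls] at h
      have h1 : ∃ c : Fin (2 * a + 1) → V, IsCopy (Fork a) (fun x y => E y x) c ∧
          ¬ Cls a 0 l V (Cut E c) := by
        by_contra hcon
        push Not at hcon
        exact h ⟨hE, hcon⟩
      obtain ⟨c, hc, hn⟩ := h1
      obtain ⟨f, hf, hfE⟩ := ih (acyclic_cut hE c) hn
      have hc' : IsCopy (fun i j => Fork a j i) E c :=
        ⟨hc.1, fun i j hij => hc.2 j i (Ne.symm hij)⟩
      exact rename ren2_inj ren2_kind
        (ext hc' (kind_arc ha) hf fun x y hne => (hfE x y hne).trans (multi_iff x y))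
  | succ k ih =>
    rw [Cls] at h
    have h1 : ∃ c : Fin (2 * a + 1) → V, IsCopy (Fork a) E c ∧
        ¬ Cls a k l V (Cut E c) := by
      by_contra hcon
      push Not at hcon
      exact h ⟨hE, hcon⟩
    obtain ⟨c, hc, hn⟩ := h1
    obtain ⟨f, hf, hfE⟩ := ih (acyclic_cut hE c) hn
    exact rename ren1_inj ren1_kind
      (ext hc (kind_arc ha) hf fun x y hne => (hfE x y hne).trans (multi_iff x y))

end Pool.Agent.Lib.Pe46137A
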