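import Pool.Agent.Lib.Pe46137A.Defs

/-!
# Subgraphs of `Zig` are induced subgraphs of some `Multi a k l`  (MODULE Pe46137A.ZigEmb, 1.3 h)

Let `f : Fin h → Bool × ℕ × ℤ` be injective with `H i j → Zig (f i) (f j)` (no loops in `H`).
`Multi a k l` is the disjoint union of `k` forks (components `Sum.inl`) and `l` reversed forks.
Position `z ∈ [-a, a]` of a two-way path is the fork vertex `pos z := if 0 ≤ z then z else a - z`
(so `0 ↦ 0`, `1..a ↦ 1..a`, `-1..-a ↦ a + 1..2 a`); `Fork a (pos z) (pos z') ↔
((0 ≤ z ∧ z' = z + 1) ∨ (z ≤ 0 ∧ z' = z - 1))` for `|z|, |z'| ≤ a`.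
Choose `a ≥ 1` larger than all `|(f i).2.2|`.
To make the image INDUCED, separate the runs: for `i : Fin h` let `rep i : Fin h` be a
canonical representative (e.g. the least index, `Finset.min'` / `Nat.find`, or the quotient map)
of the class of `i` for the equivalence relation generated by `H` (`Relation.EqvGen H`).
Vertices in one class have the same first two coordinates `(b, n)` of `f`.
Send `i` to component number `rep i` (of `Sum.inl` if `(f i).1 = true`, of `Sum.inr` otherwise)
and fork vertex `pos (f i).2.2`; so `k = l = h`.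
Injective: equal images give equivalent `i, j` with the same `b`, hence the same `n` and the
same position.  Arcs: `H i j` gives the same component and a `Fork` arc.  Conversely, if the
images are joined by an arc then `i ~ j` (same representative) and the positions are
consecutive (with the right orientation): one must show `H i j`.  In a class (connected by arcs
of `H`, which join consecutive positions of one two-way path) the set of positions is an
interval and each pair of consecutive positions `z, z + 1` occurring in the class is joined by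
an arc of `H`: a chain of `H`-arcs from `i` to `j` has to cross from `≤ z` to `≥ z + 1`, and a
crossing step joins the positions `z` and `z + 1`, i.e. (injectivity of `f`) the vertices `i`
and `j` themselves; its direction is forced by `Zig`.
-/

namespace Pool.Agent.Lib.Pe46137A

open Pool.Agent.Lib.Pe46137h7

namespace ZigEmbAux

/-- the fork vertex of a position -/
def posn (a : ℕ) (z : ℤ) : ℕ := if 0 ≤ z then z.toNat else ((a : ℤ) - z).toNat

theorem posn_lt {a : ℕ} {z : ℤ} (h1 : z ≤ a) (h2 : -(a : ℤ) ≤ z) : posn a z < 2 * a + 1 := by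
  unfold posn
  split_ifs <;> omega

theorem posn_inj {a : ℕ} {z z' : ℤ} (h1 : z ≤ a) (h1' : z' ≤ a)
    (h : posn a z = posn a z') : z = z' := by
  unfold posn at h
  split_ifs at h <;> omega

theorem posn_fork {a : ℕ} {z z' : ℤ} (h1 : z ≤ a) (h1' : z' ≤ a) :
    ((posn a z' = posn a z + 1 ∧ posn a z ≠ a) ∨ (posn a z = 0 ∧ posn a z' = a + 1)) ↔
      ((0 ≤ z ∧ z' = z + 1) ∨ (z ≤ 0 ∧ z' = z - 1)) := by
  unfold posn
  split_ifs <;> constructor <;> intro h <;> omega

theorem eqv_fst {h : ℕ} {H : Fin h → Fin h → Prop} {f : Fin h → Bool × ℕ × ℤ}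
    (hf : ∀ i j, H i j → Zig (f i) (f j)) {i j : Fin h} (hij : Relation.EqvGen H i j) :
    (f i).1 = (f j).1 ∧ (f i).2.1 = (f j).2.1 := by
  induction hij with
  | rel x y hxy => exact ⟨(hf x y hxy).1, (hf x y hxy).2.1⟩
  | refl x => exact ⟨rfl, rfl⟩
  | symm x y _ ih => exact ⟨ih.1.symm, ih.2.symm⟩
  | trans x y z _ _ ih1 ih2 => exact ⟨ih1.1.trans ih2.1, ih1.2.trans ih2.2⟩

theorem crossing {h : ℕ} {H : Fin h → Fin h → Prop} {f : Fin h → Bool × ℕ × ℤ}
    (hf : ∀ i j, H i j → Zig (f i) (f j)) {i j : Fin h} (hij : Relation.EqvGen H i j) :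
    ∀ z : ℤ, (((f i).2.2 ≤ z ∧ z + 1 ≤ (f j).2.2) ∨ ((f j).2.2 ≤ z ∧ z + 1 ≤ (f i).2.2)) →
      ∃ p q, Relation.EqvGen H i p ∧ Relation.EqvGen H i q ∧ (f p).2.2 = z ∧
        (f q).2.2 = z + 1 ∧ (H p q ∨ H q p) := by
  induction hij with
  | rel x y hxy =>
    intro z hz
    have h3 := (hf x y hxy).2.2
    have h4 : (f y).2.2 = (f x).2.2 + 1 ∨ (f x).2.2 = (f y).2.2 + 1 := by
      rcases h3 with h | h <;> omega
    rcases hz with hz | hz
    · refine ⟨x, y, Relation.EqvGen.refl _, Relation.EqvGen.rel _ _ hxy, by omega, by omega,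
        Or.inl hxy⟩
    · refine ⟨y, x, Relation.EqvGen.rel _ _ hxy, Relation.EqvGen.refl _, by omega, by omega,
        Or.inr hxy⟩
  | refl x => intro z hz; exfalso; omega
  | symm x y hxy ih =>
    intro z hz
    obtain ⟨p, q, h1, h2, h3⟩ := ih z hz.symm
    exact ⟨p, q, (hxy.symm).trans _ _ _ h1, (hxy.symm).trans _ _ _ h2, h3⟩
  | trans x y w hxy hyw ih1 ih2 =>
    intro z hz
    by_cases hc : ((f x).2.2 ≤ z ∧ z + 1 ≤ (f y).2.2) ∨ ((f y).2.2 ≤ z ∧ z + 1 ≤ (f x).2.2)
    · exact ih1 z hc
    · obtain ⟨p, q, h1, h2, h3⟩ := ih2 z (by omega)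
      exact ⟨p, q, hxy.trans _ _ _ h1, hxy.trans _ _ _ h2, h3⟩

theorem arc_of_eqv {h : ℕ} {H : Fin h → Fin h → Prop} {f : Fin h → Bool × ℕ × ℤ}
    (hinj : Function.Injective f)
    (hf : ∀ i j, H i j → Zig (f i) (f j)) {i j : Fin h} (hij : Relation.EqvGen H i j)
    (hz : (f j).2.2 = (f i).2.2 + 1) : H i j ∨ H j i := by
  obtain ⟨p, q, h1, h2, h3, h4, h5⟩ := crossing hf hij (f i).2.2 (Or.inl ⟨le_refl _, hz.ge⟩)
  have hp : p = i := by
    apply hinj
    have e1 := eqv_fst hf h1
    exact Prod.ext e1.1.symm (Prod.ext e1.2.symm h3)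
  have hq : q = j := by
    apply hinj
    have e1 := eqv_fst hf h2
    have e2 := eqv_fst hf hij
    exact Prod.ext (e1.1.symm.trans e2.1) (Prod.ext (e1.2.symm.trans e2.2) (h4.trans hz.symm))
  rw [hp, hq] at h5
  exact h5

end ZigEmbAux

open ZigEmbAux in
theorem exists_multi_of_zig {h : ℕ} {H : Fin h → Fin h → Prop} (hH : HasSub H Zig) :
    ∃ a k l : ℕ, 1 ≤ a ∧ ∃ g : Fin h → (Fin k ⊕ Fin l) × Fin (2 * a + 1),
      Function.Injective g ∧ ∀ i j, i ≠ j → (H i j ↔ Multi a k l (g i) (g j)) := by
  classical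
  obtain ⟨f, hinj, hf⟩ := hH
  obtain ⟨a, ha⟩ : ∃ a : ℕ, a = (∑ i, ((f i).2.2).natAbs) + 1 := ⟨_, rfl⟩
  have hb : ∀ i, ((f i).2.2).natAbs ≤ a := by
    intro i
    have h1 : ((f i).2.2).natAbs ≤ ∑ j, ((f j).2.2).natAbs :=
      Finset.single_le_sum (f := fun j => ((f j).2.2).natAbs) (fun _ _ => Nat.zero_le _)
        (Finset.mem_univ i)
    omega
  have hb1 : ∀ i, (f i).2.2 ≤ a := fun i => by have := hb i; omega
  have hb2 : ∀ i, -(a : ℤ) ≤ (f i).2.2 := fun i => by have := hb i; omega
  let S : Setoid (Fin h) := Relation.EqvGen.setoid H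
  let rep : Fin h → Fin h := fun i => (Quotient.mk S i).out
  have hrep : ∀ i j, rep i = rep j ↔ Relation.EqvGen H i j := by
    intro i j
    constructor
    · intro h
      have h1 : Quotient.mk S i = Quotient.mk S j := Quotient.out_injective h
      exact Quotient.exact h1
    · intro h
      have h1 : Quotient.mk S i = Quotient.mk S j := Quotient.sound h
      show (Quotient.mk S i).out = (Quotient.mk S j).out
      rw [h1]
  refine ⟨a, h, h, by omega, fun i => (if (f i).1 = true then Sum.inl (rep i) else Sum.inr (rep i),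
    ⟨posn a (f i).2.2, posn_lt (hb1 i) (hb2 i)⟩), ?_, ?_⟩
  · intro i j hij
    have e1 := congrArg Prod.fst hij
    have e2 := congrArg (fun x => (Prod.snd x).val) hij
    simp only at e1 e2
    have e3 : (f i).2.2 = (f j).2.2 := posn_inj (hb1 i) (hb1 j) e2
    have e4 : rep i = rep j := by
      split_ifs at e1
      · exact Sum.inl_injective e1
      · exact Sum.inr_injective e1
    have e5 := eqv_fst hf ((hrep i j).1 e4)
    exact hinj (Prod.ext e5.1 (Prod.ext e5.2 e3))
  · intro i j _
    constructor
    · intro hH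
      have h1 := hf i j hH
      have h2 : rep i = rep j := (hrep i j).2 (Relation.EqvGen.rel _ _ hH)
      refine ⟨?_, ?_⟩
      · show (if (f i).1 = true then Sum.inl (rep i) else Sum.inr (rep i) : Fin h ⊕ Fin h) =
          (if (f j).1 = true then Sum.inl (rep j) else Sum.inr (rep j))
        rw [h2, h1.1]
      · rcases h1.2.2 with ⟨hb, h3⟩ | ⟨hb, h3⟩
        · left
          refine ⟨?_, ?_⟩
          · simp [hb]
          · exact (posn_fork (hb1 i) (hb1 j)).2 h3
        · right
          refine ⟨?_, ?_⟩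
          · simp [hb]
          · exact (posn_fork (hb1 j) (hb1 i)).2 h3
    · rintro ⟨h1, h2⟩
      have h1' : (if (f i).1 = true then Sum.inl (rep i) else Sum.inr (rep i) : Fin h ⊕ Fin h) =
          (if (f j).1 = true then Sum.inl (rep j) else Sum.inr (rep j)) := h1
      have e4 : rep i = rep j := by
        split_ifs at h1'
        · exact Sum.inl_injective h1'
        · exact Sum.inr_injective h1'
      have he := (hrep i j).1 e4
      have e5 := eqv_fst hf he
      have key : ∀ p q : Fin h, Relation.EqvGen H p q →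
          ((0 ≤ (f p).2.2 ∧ (f q).2.2 = (f p).2.2 + 1) ∨
            ((f p).2.2 ≤ 0 ∧ (f q).2.2 = (f p).2.2 - 1)) → H p q ∨ H q p := by
        intro p q hpq h3
        rcases h3 with h3 | h3
        · exact arc_of_eqv hinj hf hpq h3.2
        · exact (arc_of_eqv hinj hf hpq.symm (by omega)).symm
      rcases h2 with ⟨hl, hF⟩ | ⟨hl, hF⟩
      · have hb : (f i).1 = true := by
          by_contra hb
          simp [hb] at hl
        have h3 := (posn_fork (hb1 i) (hb1 j)).1 hF
        rcases key i j he h3 with h4 | h4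
        · exact h4
        · exfalso
          have h5 := (hf j i h4).2.2
          have hbj : (f j).1 = true := e5.1 ▸ hb
          rw [hbj] at h5
          simp at h5
          omega
      · have hb : (f i).1 = false := by
          by_contra hb
          simp only [Bool.not_eq_false] at hb
          simp [hb] at hl
        have h3 := (posn_fork (hb1 j) (hb1 i)).1 hF
        rcases key j i he.symm h3 with h4 | h4
        · exfalso
          have h5 := (hf j i h4).2.2
          have hbj : (f j).1 = false := e5.1 ▸ hb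
          rw [hbj] at h5
          simp at h5
          omega
        · exact h4

end Pool.Agent.Lib.Pe46137A
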