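import Pool.Agent.Lib.Pe46137A.ClsEasy
import Pool.Agent.Lib.Pe46137A.Nest
import Pool.Agent.Lib.Pe46137A.ZigEmb

/-!
# Acyclic digraphs without an induced subgraph of `Zig`: reachability in FO + STC
-/

namespace Pool.Agent.Lib.Pe46137A

open Pool.Agent.Lib.Pe46137h7

theorem easy_acyclic {h : ℕ} {H : Fin h → Fin h → Prop} (hH : HasSub H Zig) :
    ∃ φ : Fml Unit 2, ∀ (V : Type) [Finite V] (E : V → V → Prop), Acyclic E →
      (¬ ∃ c : Fin h → V, IsCopy H E c) →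
      ∀ s t, Sat (fun _ => E) φ ![s, t] ↔ Relation.ReflTransGen E s t := by
  obtain ⟨a, k, l, ha, g, hg1, hg2⟩ := exists_multi_of_zig hH
  obtain ⟨P, ⟨φ, hφ⟩, hP⟩ := easy_cls ha k l
  refine ⟨φ, fun V _ E hE hfree s t => (hφ V E s t).trans (hP V E ?_ s t)⟩
  by_contra hcls
  obtain ⟨f, hf1, hf2⟩ := multi_of_not_cls ha k l hE hcls
  refine hfree ⟨fun i => f (g i), hf1.comp hg1, fun i j hij => ?_⟩
  rw [hf2 _ _ (hg1.ne hij), hg2 i j hij]

end Pool.Agent.Lib.Pe46137A
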