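import Mathlib

/-!
# The two-time king lemma  (MODULE Pe46137A.King, about 0.6 h, Mathlib only)

Proof.  Suppose not: for every `x` there is `f x` such that no `z` has `S x z` and `T z (f x)`;
by semicompleteness of `T`: for all `z` with `S x z`: `T (f x) z` and `¬ T z (f x)` (*).
Choose a nonempty finite set `C` with `f '' C ⊆ C` of minimal cardinality; then `f '' C = C` and
`f` is injective on `C` (surjective self-map of a finite set).  Count the ordered pairs:
`A = {(x, z) ∈ C × C : S x z}` has at least `k (k + 1) / 2` elements, `k = |C| ≥ 1`, because `S`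
is semicomplete and reflexive (`hS x x`): the map swapping coordinates shows
`C × C = A ∪ swap A`, and the diagonal lies in both, so `2 |A| ≥ k ^ 2 + k`.
`B = {(y, z) ∈ C × C : ¬ T z y}` is disjoint from `swap B` (semicompleteness) and from the
diagonal (reflexivity), so `2 |B| ≤ k ^ 2 - k`.  By (*) the injective map `(x, z) ↦ (f x, z)`
sends `A` into `B`, so `|A| ≤ |B|`: contradiction with `k ≥ 1`.
-/

namespace Pool.Agent.Lib.Pe46137A

/-- **Two-time king lemma.**  For two semicomplete relations on a nonempty finite type there is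
an `x` such that every `y` is reached from `x` by a step of the first relation followed by a
step of the second one. -/
theorem two_kings {ι : Type*} [Finite ι] [Nonempty ι] (S T : ι → ι → Prop)
    (hS : ∀ x y, S x y ∨ S y x) (hT : ∀ x y, T x y ∨ T y x) :
    ∃ x, ∀ y, ∃ z, S x z ∧ T z y := by
  classical
  have := Fintype.ofFinite ι
  by_contra! h
  choose f hf using h
  -- a minimal nonempty set closed under `f`
  obtain ⟨C, hCmin⟩ : ∃ C : Finset ι,
      Minimal (fun C : Finset ι => C.Nonempty ∧ C.image f ⊆ C) C := by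
    refine exists_minimal_of_wellFoundedLT _ ⟨Finset.univ, Finset.univ_nonempty, ?_⟩
    exact Finset.subset_univ _
  have hCne := hCmin.prop.1
  have hCsub := hCmin.prop.2
  have hle : C ≤ C.image f :=
    hCmin.le_of_le ⟨hCne.image f, Finset.image_subset_image hCsub⟩ hCsub
  have hCeq : C.image f = C := Finset.Subset.antisymm hCsub hle
  have hinj : Set.InjOn f (C : Set ι) := by
    rw [← Finset.card_image_iff, hCeq]
  have hmem : ∀ x ∈ C, f x ∈ C := fun x hx => hCsub (Finset.mem_image_of_mem f hx)
  set A := (C ×ˢ C).filter (fun p : ι × ι => S p.1 p.2) with hA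
  set B := (C ×ˢ C).filter (fun p : ι × ι => ¬ T p.2 p.1) with hB
  have hAB : A.card ≤ B.card := by
    refine Finset.card_le_card_of_injOn (fun p : ι × ι => (f p.1, p.2)) ?_ ?_
    · rintro ⟨x, z⟩ hp
      simp only [hA, hB, Finset.coe_filter, Finset.mem_product, Set.mem_ofPred_eq] at hp ⊢
      exact ⟨⟨hmem x hp.1.1, hp.1.2⟩, hf x z hp.2⟩
    · rintro ⟨x, z⟩ hp ⟨x', z'⟩ hp' heq
      simp only [hA, Finset.coe_filter, Finset.mem_product, Set.mem_ofPred_eq] at hp hp'
      simp only [Prod.mk.injEq] at heq
      have := hinj (Finset.mem_coe.2 hp.1.1) (Finset.mem_coe.2 hp'.1.1) heq.1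
      rw [this, heq.2]
  have hswapA : (A.image Prod.swap).card = A.card :=
    Finset.card_image_of_injective _ Prod.swap_injective
  have hswapB : (B.image Prod.swap).card = B.card :=
    Finset.card_image_of_injective _ Prod.swap_injective
  have hdiag : (C.image (fun x => (x, x))).card = C.card :=
    Finset.card_image_of_injective _ (fun a b hab => (Prod.mk.inj hab).1)
  have hA1 : A ∪ A.image Prod.swap = C ×ˢ C := by
    ext ⟨x, z⟩
    simp only [hA, Finset.mem_union, Finset.mem_filter, Finset.mem_product, Finset.mem_image,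
      Prod.exists, Prod.swap_prod_mk, Prod.mk.injEq]
    constructor
    · rintro (h | ⟨a, b, h, h1, h2⟩)
      · exact h.1
      · subst h1 h2
        exact ⟨h.1.2, h.1.1⟩
    · rintro ⟨hx, hz⟩
      rcases hS x z with h | h
      · exact Or.inl ⟨⟨hx, hz⟩, h⟩
      · exact Or.inr ⟨z, x, ⟨⟨hz, hx⟩, h⟩, rfl, rfl⟩
  have hA2 : C.image (fun x => (x, x)) ⊆ A ∩ A.image Prod.swap := by
    intro p hp
    obtain ⟨x, hx, rfl⟩ := Finset.mem_image.1 hp
    have hxx : (x, x) ∈ A := by
      simp only [hA, Finset.mem_filter, Finset.mem_product]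
      exact ⟨⟨hx, hx⟩, (hS x x).elim id id⟩
    exact Finset.mem_inter.2 ⟨hxx, Finset.mem_image.2 ⟨(x, x), hxx, rfl⟩⟩
  have hAc : C.card * C.card + C.card ≤ 2 * A.card := by
    have h1 := Finset.card_union_add_card_inter A (A.image Prod.swap)
    rw [hA1, Finset.card_product, hswapA] at h1
    have h2 := Finset.card_le_card hA2
    rw [hdiag] at h2
    omega
  have hB1 : Disjoint B (B.image Prod.swap) := by
    rw [Finset.disjoint_left]
    rintro ⟨x, z⟩ h1 h2
    obtain ⟨⟨a, b⟩, h3, h4⟩ := Finset.mem_image.1 h2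
    simp only [Prod.swap_prod_mk, Prod.mk.injEq] at h4
    obtain ⟨rfl, rfl⟩ := h4
    simp only [hB, Finset.mem_filter] at h1 h3
    rcases hT a b with h | h
    · exact h1.2 h
    · exact h3.2 h
  have hB2 : Disjoint (B ∪ B.image Prod.swap) (C.image (fun x => (x, x))) := by
    rw [Finset.disjoint_right]
    intro p hp hp'
    obtain ⟨x, hx, rfl⟩ := Finset.mem_image.1 hp
    have hxx : ¬ T x x := by
      rcases Finset.mem_union.1 hp' with h | h
      · exact (Finset.mem_filter.1 h).2
      · obtain ⟨⟨a, b⟩, h3, h4⟩ := Finset.mem_image.1 h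
        simp only [Prod.swap_prod_mk, Prod.mk.injEq] at h4
        obtain ⟨rfl, rfl⟩ := h4
        exact (Finset.mem_filter.1 h3).2
    exact hxx ((hT x x).elim id id)
  have hB3 : (B ∪ B.image Prod.swap) ∪ (C.image (fun x => (x, x))) ⊆ C ×ˢ C := by
    refine Finset.union_subset (Finset.union_subset (Finset.filter_subset _ _) ?_) ?_
    · intro p hp
      obtain ⟨⟨a, b⟩, h3, rfl⟩ := Finset.mem_image.1 hp
      have := (Finset.mem_filter.1 h3).1
      simp only [Finset.mem_product, Prod.swap_prod_mk] at this ⊢
      exact ⟨this.2, this.1⟩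
    · intro p hp
      obtain ⟨x, hx, rfl⟩ := Finset.mem_image.1 hp
      exact Finset.mem_product.2 ⟨hx, hx⟩
  have hBc : 2 * B.card + C.card ≤ C.card * C.card := by
    have h1 := Finset.card_le_card hB3
    rw [Finset.card_union_of_disjoint hB2, Finset.card_union_of_disjoint hB1, hswapB, hdiag,
      Finset.card_product] at h1
    omega
  have hpos := Finset.card_pos.2 hCne
  omega

end Pool.Agent.Lib.Pe46137A
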