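import Pool.Agent.Lib.Pe46137A.Extract
import Pool.Agent.Lib.Pe46137A.King

/-!
# Existence of a dominating out-neighbour

`S` is a relation (the definable part of reachability) that is reflexive, contains the arcs, and
contains reachability in `Cut E c` for every induced fork `c`.  If `u` reaches `t`, but not by a
bounded number of `S`-steps, then some out-neighbour of `u` reaches all geodesics of length
`2 a + 1` from `u` by a bounded number of `S`-steps.
-/

namespace Pool.Agent.Lib.Pe46137A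

open Pool.Agent.Lib.Pe46137h7

namespace ExistAux

open ExtractAux

variable {V : Type} {E S : V → V → Prop}

theorem exists_walk {k : ℕ} {x y : V} (h : Within E k x y) : ∃ m ≤ k, Walk E m x y := by
  induction k generalizing y with
  | zero => exact ⟨0, le_rfl, by rw [show x = y from h]; exact .nil _⟩
  | succ k ih =>
    rcases h with h | ⟨c, h1, h2⟩
    · obtain ⟨m, hm, w⟩ := ih h
      exact ⟨m, by omega, w⟩
    · obtain ⟨m, hm, w⟩ := ih h1
      exact ⟨m + 1, by omega, w.append (.cons h2 (.nil _))⟩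

theorem exists_geo {u t : V} (h : Reach E u t) : ∃ (n : ℕ) (p : ℕ → V), Geo E u n p ∧ p n = t := by
  obtain ⟨n, p, h0, h1, h2, hmin⟩ := exists_shortest h
  refine ⟨n, p, ⟨h0, h2, ?_⟩, h1⟩
  intro i hi k hk
  obtain ⟨m, hm, w⟩ := exists_walk hk
  have w2 := walk_of_path h2 i n hi le_rfl
  rw [h1] at w2
  have := hmin _ (w.append w2)
  omega

theorem Geo.mono {u : V} {D D' : ℕ} {q : ℕ → V} (hq : Geo E u D q) (h : D' ≤ D) :
    Geo E u D' q :=
  ⟨hq.1, fun i hi => hq.2.1 i (by omega), fun i hi => hq.2.2 i (by omega)⟩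

theorem Geo.congr {u : V} {D : ℕ} {q q' : ℕ → V} (hq : Geo E u D q)
    (h : ∀ i ≤ D, q' i = q i) : Geo E u D q' := by
  refine ⟨by rw [h 0 (Nat.zero_le _)]; exact hq.1, fun i hi => ?_, fun i hi k hk => ?_⟩
  · rw [h i (by omega), h (i + 1) (by omega)]
    exact hq.2.1 i hi
  · rw [h i hi] at hk
    exact hq.2.2 i hi k hk

/-- A tuple as a sequence. -/
def seq {D : ℕ} (f : Fin (D + 1) → V) (i : ℕ) : V := f ⟨min i D, by omega⟩

theorem seq_eq {D : ℕ} (q : ℕ → V) {i : ℕ} (hi : i ≤ D) :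
    seq (D := D) (fun k => q k.val) i = q i := by
  simp only [seq]
  rw [min_eq_left hi]

theorem Within.sub {k : ℕ} {x y : V} (hES : ∀ x y, E x y → S x y) (h : Within E k x y) :
    Within S k x y := by
  induction k generalizing y with
  | zero => exact h
  | succ k ih =>
    rcases h with h | ⟨c, h1, h2⟩
    · exact Or.inl (ih h)
    · exact Or.inr ⟨c, ih h1, hES _ _ h2⟩

/-- A sequence of arcs between untouched vertices gives reachability after the cut. -/
theorem reach_cut {n : ℕ} {c : Fin n → V} {p : ℕ → V} {N i j : ℕ}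
    (hp : ∀ i < N, E (p i) (p (i + 1))) (hij : i ≤ j) (hj : j ≤ N)
    (ht : ∀ k, i ≤ k → k ≤ j → ¬ Touch E c (p k)) : Reach (Cut E c) (p i) (p j) := by
  obtain ⟨d, rfl⟩ := Nat.exists_eq_add_of_le hij
  induction d with
  | zero => exact .refl
  | succ d ih =>
    refine (ih (by omega) (by omega) (fun k h1 h2 => ht k h1 (by omega))).tail ?_
    exact ⟨hp _ (by omega), ht _ (by omega) (by omega), ht _ (by omega) (by omega)⟩

end ExistAux

open ExtractAux ExistAux

theorem exists_best {V : Type} [Finite V] {E S : V → V → Prop} (hE : Acyclic E) {a : ℕ}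
    (ha : 1 ≤ a) (hrefl : ∀ x, S x x) (harc : ∀ x y, E x y → S x y)
    (hcut : ∀ c : Fin (2 * a + 1) → V, IsCopy (Fork a) E c →
      ∀ x y, Reach (Cut E c) x y → S x y)
    {u t : V} (hut : Reach E u t) (hno : ¬ Within S (2 * a + 4) u t) :
    ∃ u', E u u' ∧ ∀ q : ℕ → V, Geo E u (2 * a + 1) q →
      ∃ j, 1 ≤ j ∧ j ≤ 2 * a + 1 ∧ Within S (5 * a + 7) u' (q j) := by
  classical
  obtain ⟨n, p, hp, hpn⟩ := exists_geo hut
  have hn : 2 * a + 4 < n := by
    by_contra hle
    refine hno (Within.mono (k := n) (by omega) ?_)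
    have := Geo.from hp le_rfl
    rw [hpn] at this
    exact Within.sub harc this
  -- the window
  have hex : ∃ β, 2 * a + 3 ≤ β ∧ β ≤ n ∧ ∀ c : Fin (2 * a + 1) → V, IsCopy (Fork a) E c →
      ∃ i, 2 * a + 3 ≤ i ∧ i ≤ β ∧ Touch E c (p i) := by
    by_contra hcon
    push Not at hcon
    obtain ⟨c, hc, hct⟩ := hcon n (by omega) le_rfl
    have h1 : Reach (Cut E c) (p (2 * a + 3)) (p n) :=
      reach_cut hp.2.1 (by omega) le_rfl (fun k h2 h3 => hct k h2 h3)
    rw [hpn] at h1
    exact hno ((Within.sub harc (Geo.from hp (i := 2 * a + 3) (by omega))).tail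
      (hcut c hc _ _ h1))
  obtain ⟨hβ1, hβ2, hβ3⟩ := Nat.find_spec hex
  set β := Nat.find hex with hβ
  have hwin : ∀ i, 2 * a + 3 ≤ i → i ≤ β → Within S 2 (p (2 * a + 3)) (p i) := by
    have hlt : ∀ i, 2 * a + 3 ≤ i → i < β → S (p (2 * a + 3)) (p i) := by
      intro i hi1 hi2
      have hno' := Nat.find_min hex hi2
      push Not at hno'
      obtain ⟨c, hc, hct⟩ := hno' hi1 (by omega)
      exact hcut c hc _ _ (reach_cut hp.2.1 hi1 (by omega) (fun k h2 h3 => hct k h2 h3))
    intro i hi1 hi2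
    rcases Nat.lt_or_ge i β with h | h
    · exact Or.inl (Within.single (hlt i hi1 h))
    · have hiβ : i = β := by omega
      rcases Nat.lt_or_ge (2 * a + 3) β with h' | h'
      · have h3 := hlt (β - 1) (by omega) (by omega)
        have h4 := hp.2.1 (β - 1) (by omega)
        rw [show β - 1 + 1 = β by omega, ← hiβ] at h4
        rw [hiβ] at h4 ⊢
        exact (Within.single h3).tail (harc _ _ (by simpa using h4))
      · have : i = 2 * a + 3 := by omega
        rw [this]
        exact Within.refl _ _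
  -- geodesics not reached from the window
  let ι := {f : Fin (2 * a + 1 + 1) → V // Geo E u (2 * a + 1) (seq f) ∧
    ∀ i j, 2 * a + 3 ≤ i → i ≤ β → 1 ≤ j → j ≤ 2 * a + 1 → ¬ E (p i) (seq f j)}
  have hpι : Geo E u (2 * a + 1) (seq (D := 2 * a + 1) fun k => p k.val) ∧
      ∀ i j, 2 * a + 3 ≤ i → i ≤ β → 1 ≤ j → j ≤ 2 * a + 1 →
        ¬ E (p i) (seq (D := 2 * a + 1) (fun k => p k.val) j) := by
    refine ⟨Geo.congr (Geo.mono hp (by omega)) fun i hi => seq_eq p hi, ?_⟩
    intro i j hi1 hi2 hj1 hj2 h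
    rw [seq_eq p hj2] at h
    have := (Geo.arc_iff hE hp (by omega) (by omega)).1 h
    omega
  let p₀ : ι := ⟨_, hpι⟩
  have : Finite ι := Subtype.finite
  have : Nonempty ι := ⟨p₀⟩
  -- comparability
  have hsemi : ∀ m, m + a ≤ 2 * a + 1 → ∀ q r : ι, Dom E a m (seq q.1) (seq r.1) ∨
      Dom E a m (seq r.1) (seq q.1) := by
    intro m hm q r
    by_contra hcon
    push Not at hcon
    obtain ⟨c, hc, hmem⟩ := exists_fork hE ha (Geo.mono q.2.1 hm) (Geo.mono r.2.1 hm)
      hcon.1 hcon.2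
    obtain ⟨i, hi1, hi2, k, hk⟩ := hβ3 c hc
    -- the touched vertex lies on one of the two geodesics
    obtain ⟨g, j, hj, hcj⟩ : ∃ g : ι, ∃ j ≤ 2 * a + 1, c k = seq g.1 j := by
      rcases hmem k with ⟨j, hj, h⟩ | ⟨j, hj, h⟩
      · exact ⟨q, j, by omega, h⟩
      · exact ⟨r, j, by omega, h⟩
    rw [hcj] at hk
    have hd : Within E j u (seq g.1 j) := Geo.from g.2.1 hj
    rcases hk with hk | hk | hk
    · have := hp.2.2 i (by omega) j (by rw [hk]; exact hd)
      omega
    · rcases Nat.eq_zero_or_pos j with h0 | h0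
      · rw [h0, g.2.1.1] at hk
        exact no_back hE hk (Geo.from hp (i := i) (by omega)).reach
      · exact g.2.2 i j hi1 hi2 h0 hj hk
    · have := hp.2.2 i (by omega) (j + 1) (hd.tail hk)
      omega
  obtain ⟨q, hq⟩ := two_kings (fun x y : ι => Dom E a 1 (seq x.1) (seq y.1))
    (fun x y : ι => Dom E a (1 + a) (seq x.1) (seq y.1)) (hsemi 1 (by omega))
    (hsemi (1 + a) (by omega))
  -- the dominating out-neighbour
  have hmain : ∀ r : ι, ∃ j, 1 ≤ j ∧ j ≤ 2 * a + 1 ∧
      Within E (3 * a + 2) (seq q.1 1) (seq r.1 j) := by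
    intro r
    obtain ⟨z, ⟨i, hi1, hi2, hi3⟩, j, hj1, hj2, hj3⟩ := hq r
    refine ⟨j, hj1, by omega, ?_⟩
    have h1 : Within E a (seq z.1 i) (seq z.1 (1 + a)) :=
      (Geo.within z.2.1 (by omega) (by omega)).mono (by omega)
    exact ((hi3.trans h1).trans hj3).mono (by omega)
  refine ⟨seq q.1 1, ?_, ?_⟩
  · have := q.2.1.2.1 0 (by omega)
    rwa [q.2.1.1] at this
  · intro r hr
    by_cases hr2 : ∀ i j, 2 * a + 3 ≤ i → i ≤ β → 1 ≤ j → j ≤ 2 * a + 1 → ¬ E (p i) (r j)
    · have hrι : Geo E u (2 * a + 1) (seq (D := 2 * a + 1) fun k => r k.val) ∧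
          ∀ i j, 2 * a + 3 ≤ i → i ≤ β → 1 ≤ j → j ≤ 2 * a + 1 →
            ¬ E (p i) (seq (D := 2 * a + 1) (fun k => r k.val) j) := by
        refine ⟨Geo.congr hr fun i hi => seq_eq r hi, ?_⟩
        intro i j hi1 hi2 hj1 hj2 h
        rw [seq_eq r hj2] at h
        exact hr2 i j hi1 hi2 hj1 hj2 h
      obtain ⟨j, hj1, hj2, hj3⟩ := hmain ⟨_, hrι⟩
      refine ⟨j, hj1, hj2, (Within.sub harc ?_).mono (k := 3 * a + 2) (by omega)⟩
      rwa [seq_eq r hj2] at hj3
    · push Not at hr2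
      obtain ⟨i, j, hi1, hi2, hj1, hj2, hij⟩ := hr2
      obtain ⟨k, hk1, hk2, hk3⟩ := hmain p₀
      refine ⟨j, hj1, hj2, ?_⟩
      have e : seq p₀.1 k = p k := seq_eq p hk2
      rw [e] at hk3
      have h1 : Within E (2 * a + 2) (p k) (p (2 * a + 3)) :=
        (Geo.within hp (by omega) (by omega)).mono (by omega)
      have h2 := (Within.sub harc (hk3.trans h1)).trans (hwin i hi1 hi2)
      exact (h2.tail (harc _ _ hij)).mono (by omega)

end Pool.Agent.Lib.Pe46137A
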