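import Pool.Agent.Lib.Pe46137A.Defs

/-!
# Fork extraction

`E` is acyclic, `q` and `r` are geodesics from `u` of length `m + a`, and neither dominates the
other at time `m`.  Then the vertices of the two geodesics contain an induced fork with legs of
length `a`: take the two indices with maximal sum for which the vertices are joined.
-/

namespace Pool.Agent.Lib.Pe46137A

open Pool.Agent.Lib.Pe46137h7

variable {V : Type} {E : V → V → Prop}

namespace ExtractAux

theorem no_back (hE : Acyclic E) {x y : V} (h : E x y) (h' : Reach E y x) : False :=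
  hE x (Relation.TransGen.head' h h')

/-- A sequence of arcs gives bounded walks. -/
theorem within_seq {q : ℕ → V} {D : ℕ} (hq : ∀ i < D, E (q i) (q (i + 1))) {i : ℕ} (k : ℕ)
    (h : i + k ≤ D) : Within E k (q i) (q (i + k)) := by
  induction k with
  | zero => rfl
  | succ k ih => exact Or.inr ⟨q (i + k), ih (by omega), hq _ (by omega)⟩

theorem Geo.within {u : V} {D : ℕ} {q : ℕ → V} (hq : Geo E u D q) {i j : ℕ} (hij : i ≤ j)
    (hj : j ≤ D) : Within E (j - i) (q i) (q j) := by
  have h := within_seq hq.2.1 (i := i) (j - i) (by omega)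
  rwa [show i + (j - i) = j by omega] at h

theorem Geo.from {u : V} {D : ℕ} {q : ℕ → V} (hq : Geo E u D q) {i : ℕ} (hi : i ≤ D) :
    Within E i u (q i) := by
  have h := within_seq hq.2.1 (i := 0) i (by omega)
  rwa [Nat.zero_add, hq.1] at h

/-- An arc between two geodesics increases the distance from the origin by at most one. -/
theorem Geo.arc_le {u : V} {D : ℕ} {q r : ℕ → V} (hq : Geo E u D q) (hr : Geo E u D r)
    {i j : ℕ} (hi : i ≤ D) (hj : j ≤ D) (h : E (q i) (r j)) : j ≤ i + 1 :=
  hr.2.2 j hj (i + 1) ((Geo.from hq hi).tail h)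

theorem Geo.eq_le {u : V} {D : ℕ} {q r : ℕ → V} (hq : Geo E u D q) (hr : Geo E u D r)
    {i j : ℕ} (hi : i ≤ D) (hj : j ≤ D) (h : q i = r j) : i = j := by
  have h1 := hr.2.2 j hj i (h ▸ Geo.from hq hi)
  have h2 := hq.2.2 i hi j (h ▸ Geo.from hr hj)
  omega

theorem Geo.arc_iff (hE : Acyclic E) {u : V} {D : ℕ} {q : ℕ → V} (hq : Geo E u D q)
    {i j : ℕ} (hi : i ≤ D) (hj : j ≤ D) : E (q i) (q j) ↔ j = i + 1 := by
  constructor
  · intro h
    have h1 := Geo.arc_le hq hq hi hj h
    by_contra h2
    exact no_back hE h (Geo.within hq (i := j) (j := i) (by omega) hi).reach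
  · rintro rfl
    exact hq.2.1 i (by omega)

/-- Two legs give a fork. -/
theorem copy_of_legs {a : ℕ} {x y : ℕ → V}
    (hx : ∀ i j, i ≤ a → j ≤ a → (E (x i) (x j) ↔ j = i + 1) ∧ (x i = x j → i = j))
    (hy : ∀ i j, 1 ≤ i → i ≤ a → 1 ≤ j → j ≤ a →
      (E (y i) (y j) ↔ j = i + 1) ∧ (y i = y j → i = j))
    (hxy : ∀ i j, i ≤ a → 1 ≤ j → j ≤ a →
      x i ≠ y j ∧ ¬ E (y j) (x i) ∧ (E (x i) (y j) ↔ i = 0 ∧ j = 1)) :
    IsCopy (Fork a) E (fun k : Fin (2 * a + 1) => if k.val ≤ a then x k.val else y (k.val - a)) := by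
  constructor
  · intro i j hij
    have hi := i.2
    have hj := j.2
    simp only at hij
    apply Fin.ext
    split_ifs at hij with h1 h2 h2
    · exact (hx _ _ h1 h2).2 hij
    · exact absurd hij (hxy _ _ h1 (by omega) (by omega)).1
    · exact absurd hij.symm (hxy _ _ h2 (by omega) (by omega)).1
    · have := (hy _ _ (by omega) (by omega) (by omega) (by omega)).2 hij
      omega
  · intro i j hij
    have hi := i.2
    have hj := j.2
    have hne : i.val ≠ j.val := fun h => hij (Fin.ext h)
    simp only [Fork]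
    split_ifs with h1 h2 h2
    · rw [(hx _ _ h1 h2).1]
      constructor
      · intro h
        left
        omega
      · rintro (h | h) <;> omega
    · rw [(hxy _ _ h1 (by omega) (by omega)).2.2]
      constructor
      · rintro ⟨h3, h4⟩
        right
        omega
      · rintro (h | h) <;> omega
    · constructor
      · intro h
        exact absurd h (hxy _ _ h2 (by omega) (by omega)).2.1
      · rintro (h | h) <;> omega
    · rw [(hy _ _ (by omega) (by omega) (by omega) (by omega)).1]
      constructor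
      · intro h
        left
        omega
      · rintro (h | h) <;> omega

/-- The vertices with the given indices are joined. -/
def Cross (E : V → V → Prop) (q r : ℕ → V) (i j : ℕ) : Prop :=
  q i = r j ∨ E (q i) (r j) ∨ E (r j) (q i)

theorem Cross.swap {q r : ℕ → V} {i j : ℕ} (h : Cross E q r i j) : Cross E r q j i := by
  rcases h with h | h | h
  · exact Or.inl h.symm
  · exact Or.inr (Or.inr h)
  · exact Or.inr (Or.inl h)

theorem cross_le (hE : Acyclic E) {u : V} {a m : ℕ} {q r : ℕ → V} (hq : Geo E u (m + a) q)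
    (hr : Geo E u (m + a) r) (h1 : ¬ Dom E a m q r) (h2 : ¬ Dom E a m r q) {i j : ℕ}
    (hi : i ≤ m + a) (hj : j ≤ m + a) (h : Cross E q r i j) : i ≤ m := by
  by_contra hlt
  have hqi : Within E a (q m) (q i) := (Geo.within hq (by omega) hi).mono (by omega)
  have hstart : q i = u → False := by
    intro h3
    have h4 := hq.2.2 i hi 0 (by rw [h3]; rfl)
    omega
  rcases h with h | h | h
  · refine h1 ⟨j, ?_, hj, ?_⟩
    · by_contra h0
      have : j = 0 := by omega
      rw [this, hr.1] at h
      exact hstart h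
    · rw [← h]
      exact hqi.mono (by omega)
  · refine h1 ⟨j, ?_, hj, hqi.tail h⟩
    by_contra h0
    have : j = 0 := by omega
    rw [this, hr.1] at h
    exact no_back hE h (Geo.from hq hi).reach
  · have h3 := Geo.arc_le hr hq hj hi h
    refine h2 ⟨i, by omega, hi, ?_⟩
    exact ((Geo.within hr (i := m) (j := j) (by omega) hj).mono (l := a) (by omega)).tail h

theorem fork_aux (hE : Acyclic E) {u : V} {a m : ℕ} {q r : ℕ → V} (hq : Geo E u (m + a) q)
    (hr : Geo E u (m + a) r) {i j : ℕ} (hi : i ≤ m) (hj : j ≤ m)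
    (hne : q i ≠ r j) (hij : E (q i) (r j))
    (hmax : ∀ i' j', i' ≤ m + a → j' ≤ m + a → i + j < i' + j' → ¬ Cross E q r i' j') :
    ∃ c : Fin (2 * a + 1) → V, IsCopy (Fork a) E c ∧
      ∀ k, (∃ l ≤ m + a, c k = q l) ∨ ∃ l ≤ m + a, c k = r l := by
  refine ⟨_, copy_of_legs (x := fun k => q (i + k)) (y := fun k => r (j + k - 1)) ?_ ?_ ?_, ?_⟩
  · intro k l hk hl
    refine ⟨?_, fun h => ?_⟩
    · rw [Geo.arc_iff hE hq (by omega) (by omega)]
      omega
    · have := Geo.eq_le hq hq (by omega) (by omega) h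
      omega
  · intro k l hk hk' hl hl'
    refine ⟨?_, fun h => ?_⟩
    · rw [Geo.arc_iff hE hr (by omega) (by omega)]
      omega
    · have := Geo.eq_le hr hr (by omega) (by omega) h
      omega
  · intro k l hk hl hl'
    by_cases h0 : k = 0 ∧ l = 1
    · obtain ⟨rfl, rfl⟩ := h0
      simp only [Nat.add_zero, Nat.add_sub_cancel]
      refine ⟨hne, fun h => no_back hE hij (.single h), ?_⟩
      simpa using hij
    · have h3 := hmax (i + k) (j + l - 1) (by omega) (by omega) (by omega)
      refine ⟨fun h => h3 (Or.inl h), fun h => h3 (Or.inr (Or.inr h)), ?_⟩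
      exact ⟨fun h => absurd (Or.inr (Or.inl h)) h3, fun h => absurd h h0⟩
  · intro k
    have hk := k.2
    split_ifs with h
    · exact Or.inl ⟨i + k.val, by omega, rfl⟩
    · exact Or.inr ⟨j + (k.val - a) - 1, by omega, rfl⟩

end ExtractAux

open ExtractAux

theorem exists_fork {V : Type} {E : V → V → Prop} (hE : Acyclic E) {u : V} {a m : ℕ}
    (ha : 1 ≤ a) {q r : ℕ → V} (hq : Geo E u (m + a) q) (hr : Geo E u (m + a) r)
    (h1 : ¬ Dom E a m q r) (h2 : ¬ Dom E a m r q) :
    ∃ c : Fin (2 * a + 1) → V, IsCopy (Fork a) E c ∧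
      ∀ i, (∃ j ≤ m + a, c i = q j) ∨ ∃ j ≤ m + a, c i = r j := by
  classical
  let S : Finset (ℕ × ℕ) := ((Finset.range (m + a + 1)) ×ˢ (Finset.range (m + a + 1))).filter
    fun p => Cross E q r p.1 p.2
  have hS : S.Nonempty := by
    refine ⟨(0, 0), ?_⟩
    simp only [S, Finset.mem_filter, Finset.mem_product, Finset.mem_range]
    exact ⟨⟨by omega, by omega⟩, Or.inl (by rw [hq.1, hr.1])⟩
  obtain ⟨⟨i, j⟩, hmem, hmax⟩ := S.exists_max_image (fun p => p.1 + p.2) hS
  simp only [S, Finset.mem_filter, Finset.mem_product, Finset.mem_range] at hmem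
  obtain ⟨⟨hi, hj⟩, hc⟩ := hmem
  have hmax' : ∀ i' j', i' ≤ m + a → j' ≤ m + a → i + j < i' + j' → ¬ Cross E q r i' j' := by
    intro i' j' hi' hj' hlt hc'
    have := hmax (i', j') (by
      simp only [S, Finset.mem_filter, Finset.mem_product, Finset.mem_range]
      exact ⟨⟨by omega, by omega⟩, hc'⟩)
    simp only at this
    omega
  have hi' : i ≤ m := cross_le hE hq hr h1 h2 (by omega) (by omega) hc
  have hj' : j ≤ m := cross_le hE hr hq h2 h1 (by omega) (by omega) hc.swap
  have hne : q i ≠ r j := by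
    intro h
    refine hmax' i (j + 1) (by omega) (by omega) (by omega) (Or.inr (Or.inl ?_))
    rw [h]
    exact hr.2.1 j (by omega)
  rcases hc with h | h | h
  · exact absurd h hne
  · exact fork_aux hE hq hr hi' hj' hne h hmax'
  · obtain ⟨c, hc1, hc2⟩ := fork_aux hE hr hq hj' hi' hne.symm h
      (fun i' j' h3 h4 h5 h6 => hmax' j' i' h4 h3 (by omega) h6.swap)
    exact ⟨c, hc1, fun k => (hc2 k).symm⟩

end Pool.Agent.Lib.Pe46137A
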