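import Pool.Agent.Lib.Pe46137A.EasyMain
import Pool.Agent.Lib.Pe46137h9.Hard

/-!
# One forbidden induced digraph, acyclic digraphs: the dichotomy
-/

namespace Pool.Agent.Lib.Pe46137A

open Pool.Agent.Lib.Pe46137h7 Pool.Agent.Lib.Pe46137i

theorem zig_iff (x y : Bool × ℕ × ℤ) : Zig x y ↔ Pe46137h9.Zig x y := by
  unfold Zig Pe46137h9.Zig Pe46137h9.ZigArc
  rfl

theorem hasSub_zig {h : ℕ} {H : Fin h → Fin h → Prop} (hH : HasSub H Pe46137h9.Zig) :
    HasSub H Zig := by
  obtain ⟨f, hf1, hf2⟩ := hH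
  exact ⟨f, hf1, fun i j hij => (zig_iff _ _).2 (hf2 i j hij)⟩

theorem hasInd_irr_iff {h : ℕ} {H : Fin h → Fin h → Prop} {V : Type} {E : V → V → Prop} :
    HasInd H E ↔ ∃ c : Fin h → V, IsCopy (Irr H) E c := by
  constructor
  · rintro ⟨f, hf, hf2⟩
    exact ⟨f, hf, fun i j hij => ((hf2 i j hij).symm).trans ⟨fun h => ⟨h, hij⟩, fun h => h.1⟩⟩
  · rintro ⟨f, hf, hf2⟩
    exact ⟨f, hf, fun i j hij => (Iff.trans (⟨fun h => ⟨h, hij⟩, fun h => h.1⟩) (hf2 i j hij).symm)⟩

/-- **Dichotomy for acyclic digraphs with one forbidden induced digraph.**  If `H`, without its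
loops, is a disjoint union of oriented paths with at most one change of direction, then one
formula of first-order logic with symmetric transitive closure defines reachability on all finite
acyclic digraphs without an induced copy of `H`; otherwise reachability on all finite digraphs
reduces to reachability on these digraphs by a first-order reduction. -/
theorem acyclic_dichotomy {h : ℕ} (H : Fin h → Fin h → Prop) :
    (HasSub (Irr H) Pe46137h9.Zig →
      ReachDef fun _ E => Pe46137h9.Acyclic E ∧ ¬ HasInd H E) ∧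
    (¬ HasSub (Irr H) Pe46137h9.Zig →
      ∃ r : Pe46137h9.DReduction, r.Into fun _ F => Pe46137h9.Acyclic F ∧ ¬ HasInd H F) := by
  refine ⟨fun hH => ?_, fun hH => Pe46137h9.acyclic_hard hH⟩
  obtain ⟨φ, hφ⟩ := easy_acyclic (hasSub_zig hH)
  refine ⟨φ, fun V _ E hE => hφ V E hE.1 fun hc => hE.2 (hasInd_irr_iff.2 hc)⟩

end Pool.Agent.Lib.Pe46137A
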