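import Pool.Agent.Lib.Pe46137A.Glue
import Pool.Agent.Lib.Pe46137i.ToD

/-!
# Directed reachability and forbidden induced digraphs

Loops are ignored throughout.

* All digraphs: for every family `H k` of finite digraphs, all without or all with a double arc,
  reachability on the finite digraphs without an induced `H k` is definable in first-order logic
  with symmetric transitive closure if some `H k` consists of disjoint single arcs and isolated
  vertices; otherwise reachability on all finite digraphs reduces to it by a first-order
  reduction.
* Acyclic digraphs: for every finite digraph `K`, reachability on the finite acyclic digraphs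
  without an induced `K` is definable in the same logic if the components of `K` are oriented paths
  with at most one change of direction; otherwise reachability on all finite digraphs reduces to
  it by a first-order reduction.
-/

namespace Pool.Agent.Lib.Pe46137A

open Pool.Agent.Lib.Pe46137h7 Pool.Agent.Lib.Pe46137i

theorem induced_dichotomy :
    (∀ {ι : Type} (h : ι → ℕ) (H : ∀ k, Fin (h k) → Fin (h k) → Prop),
      ((∀ k, ¬ HasDouble (H k)) ∨ ∀ k, HasDouble (H k)) →
      ((∃ k, IsMatch (H k)) → ReachDef fun _ E => ∀ k, ¬ HasInd (H k) E) ∧
      ((¬ ∃ k, IsMatch (H k)) →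
        ∃ r : Pe46137h9.DReduction, r.Into fun _ F => ∀ k, ¬ HasInd (H k) F)) ∧
    ∀ {h : ℕ} (K : Fin h → Fin h → Prop),
      (HasSub (Irr K) Pe46137h9.Zig →
        ReachDef fun _ E => Pe46137h9.Acyclic E ∧ ¬ HasInd K E) ∧
      (¬ HasSub (Irr K) Pe46137h9.Zig →
        ∃ r : Pe46137h9.DReduction, r.Into fun _ F => Pe46137h9.Acyclic F ∧ ¬ HasInd K F) :=
  ⟨fun h H hH => sets_dichotomy' h H hH, fun K => acyclic_dichotomy K⟩

end Pool.Agent.Lib.Pe46137A
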