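import Pool.Agent.Lib.Pe46137A.Defs

/-!
# Definability with a tuple of parameters
-/

namespace Pool.Agent.Lib.Pe46137A

open Pool.Agent.Lib.Pe46137h7

/-! ### Replacing the arc relation by a relation definable with a block of parameters -/

/-- Replacement of the arc relation by the relation defined by `ψ` from a block of parameters;
`par` gives the variables of the block and `env` those of the original formula. -/
def subE {n : ℕ} (ψ : Fml Unit (n + 2)) : {k : ℕ} → Fml Unit k → {m : ℕ} → (Fin n → Fin m) →
    (Fin k → Fin m) → Fml Unit m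
  | _, .rel _ i j, _, par, env => ψ.rename (ext (ext par (env i)) (env j))
  | _, .eq i j, _, _, env => .eq (env i) (env j)
  | _, .neg φ, _, par, env => .neg (subE ψ φ par env)
  | _, .and φ χ, _, par, env => .and (subE ψ φ par env) (subE ψ χ par env)
  | _, .ex φ, _, par, env => .ex (subE ψ φ (fun i => (par i).castSucc) (lift1 env))
  | _, .stc φ i j, _, par, env =>
    .stc (subE ψ φ (fun i => (par i).castSucc.castSucc) (lift1 (lift1 env))) (env i) (env j)

theorem comp_ext {V W : Type} {n : ℕ} (a : W → V) (f : Fin n → W) (w : W) :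
    a ∘ ext f w = ext (a ∘ f) (a w) := by
  funext i
  refine Fin.lastCases ?_ (fun i => ?_) i
  · simp [ext]
  · simp [ext]

theorem ext_comp_castSucc {V : Type} {n m : ℕ} (a : Fin m → V) (v : V) (f : Fin n → Fin m) :
    (ext a v ∘ fun i => (f i).castSucc) = a ∘ f := by
  funext i
  simp [ext]

theorem ext_comp_castSucc2 {V : Type} {n m : ℕ} (a : Fin m → V) (v w : V) (f : Fin n → Fin m) :
    (ext (ext a v) w ∘ fun i => (f i).castSucc.castSucc) = a ∘ f := by
  funext i
  simp [ext]

theorem sat_subE {V : Type} (E : V → V → Prop) {n : ℕ} (ψ : Fml Unit (n + 2)) {k : ℕ}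
    (φ : Fml Unit k) : ∀ {m : ℕ} (par : Fin n → Fin m) (env : Fin k → Fin m) (a : Fin m → V),
      Sat (fun _ => E) (subE ψ φ par env) a ↔
        Sat (fun _ => fun x y => Sat (fun _ => E) ψ (ext (ext (a ∘ par) x) y)) φ (a ∘ env) := by
  induction φ with
  | rel r i j =>
    intro m par env a
    simp only [subE, Sat]
    rw [sat_rename, comp_ext, comp_ext]
    rfl
  | eq i j => intro m par env a; rfl
  | neg φ ih => intro m par env a; exact not_congr (ih par env a)
  | and φ χ ih1 ih2 => intro m par env a; exact and_congr (ih1 par env a) (ih2 par env a)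
  | ex φ ih =>
    intro m par env a
    refine exists_congr fun v => ?_
    rw [ih, ext_comp_lift1, ext_comp_castSucc]
  | stc φ i j ih =>
    intro m par env a
    have h : (fun p q => Sat (fun _ => E)
          (subE ψ φ (fun i => (par i).castSucc.castSucc) (lift1 (lift1 env))) (ext (ext a p) q) ∨
        Sat (fun _ => E) (subE ψ φ (fun i => (par i).castSucc.castSucc) (lift1 (lift1 env)))
          (ext (ext a q) p)) = fun p q =>
        Sat (fun _ => fun x y => Sat (fun _ => E) ψ (ext (ext (a ∘ par) x) y)) φ
            (ext (ext (a ∘ env) p) q) ∨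
          Sat (fun _ => fun x y => Sat (fun _ => E) ψ (ext (ext (a ∘ par) x) y)) φ
            (ext (ext (a ∘ env) q) p) := by
      funext p q
      rw [ih, ih, ext_comp_lift1, ext_comp_lift1, ext_comp_lift1, ext_comp_lift1,
        ext_comp_castSucc2, ext_comp_castSucc2]
    simp only [subE, Sat, Function.comp_apply]
    rw [h]

/-! ### Finite conjunctions and blocks of quantifiers -/

theorem DefN.true {m : ℕ} : DefN m fun _ _ _ => True :=
  ⟨.neg (.ex (.neg (.eq (Fin.last m) (Fin.last m)))), fun V E a => by simp [Sat]⟩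

theorem DefN.const {m : ℕ} (p : Prop) : DefN m fun _ _ _ => p := by
  by_cases hp : p
  · exact DefN.true.congr fun _ _ _ => by simp [hp]
  · exact DefN.true.not.congr fun _ _ _ => by simp [hp]

theorem DefN.imp {m : ℕ} {P Q : ∀ V : Type, (V → V → Prop) → (Fin m → V) → Prop}
    (hP : DefN m P) (hQ : DefN m Q) : DefN m fun V E a => P V E a → Q V E a :=
  (hP.and hQ.not).not.congr fun V E a => by tauto

theorem DefN.iff {m : ℕ} {P Q : ∀ V : Type, (V → V → Prop) → (Fin m → V) → Prop}
    (hP : DefN m P) (hQ : DefN m Q) : DefN m fun V E a => (P V E a ↔ Q V E a) :=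
  ((DefN.imp hP hQ).and (DefN.imp hQ hP)).congr fun V E a => by tauto

theorem DefN.all {m : ℕ} : ∀ {n : ℕ}
    {P : Fin n → ∀ V : Type, (V → V → Prop) → (Fin m → V) → Prop},
    (∀ i, DefN m (P i)) → DefN m fun V E a => ∀ i, P i V E a
  | 0, _, _ => DefN.true.congr fun _ _ _ => by simp
  | n + 1, P, h =>
    ((h 0).and (DefN.all fun i : Fin n => h i.succ)).congr fun V E a =>
      (Fin.forall_fin_succ (P := fun i => P i V E a)).symm

theorem DefN.any {m n : ℕ}
    {P : Fin n → ∀ V : Type, (V → V → Prop) → (Fin m → V) → Prop}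
    (h : ∀ i, DefN m (P i)) : DefN m fun V E a => ∃ i, P i V E a :=
  (DefN.all fun i => (h i).not).not.congr fun V E a => by simp

theorem DefN.exBlock {m : ℕ} : ∀ {n : ℕ}
    {P : ∀ V : Type, (V → V → Prop) → (Fin m → V) → (Fin n → V) → Prop},
    (DefN (m + n) fun V E a => P V E (fun i => a (Fin.castAdd n i)) (fun i => a (Fin.natAdd m i))) →
      DefN m fun V E a => ∃ c, P V E a c
  | 0, P, h => by
    refine h.congr fun V E a => ?_
    constructor
    · intro h1
      exact ⟨_, h1⟩
    · rintro ⟨c, hc⟩
      have h2 : c = fun i => a (Fin.natAdd m i) := by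
        funext i
        exact i.elim0
      rw [h2] at hc
      exact hc
  | n + 1, P, h => by
    have h1 : DefN (m + n) fun V E a => ∃ v, P V E (fun i => a (Fin.castAdd n i))
        (ext (fun i => a (Fin.natAdd m i)) v) := by
      refine (DefN.ex (n := m + n) h).congr fun V E a => exists_congr fun v => ?_
      have e1 : (fun i : Fin m => ext a v (Fin.castAdd (n + 1) i)) =
          fun i => a (Fin.castAdd n i) := by
        funext i
        exact ext_castSucc a v (Fin.castAdd n i)
      have e2 : (fun i : Fin (n + 1) => ext a v (Fin.natAdd m i)) =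
          ext (fun i => a (Fin.natAdd m i)) v := by
        funext i
        refine Fin.lastCases ?_ (fun i => ?_) i
        · rw [ext_last]
          exact ext_last a v
        · rw [ext_castSucc]
          exact ext_castSucc a v (Fin.natAdd m i)
      rw [e1, e2]
    refine (DefN.exBlock (P := fun V E a c => ∃ v, P V E a (ext c v)) h1).congr
      fun V E a => ?_
    constructor
    · rintro ⟨c, v, hc⟩
      exact ⟨_, hc⟩
    · rintro ⟨c, hc⟩
      refine ⟨fun i => c i.castSucc, c (Fin.last n), ?_⟩
      have : ext (fun i => c i.castSucc) (c (Fin.last n)) = c := by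
        funext i
        refine Fin.lastCases ?_ (fun i => ?_) i
        · rw [ext_last]
        · rw [ext_castSucc]
      rw [this]
      exact hc

/-! ### Copies and deletion of their neighbourhoods -/

theorem DefN.isCopy {n m : ℕ} (K : Fin n → Fin n → Prop) (f : Fin n → Fin m) :
    DefN m fun _ E a => IsCopy K E (fun i => a (f i)) := by
  have h1 : DefN m fun V E a => ∀ i j : Fin n, a (f i) = a (f j) → i = j :=
    DefN.all fun i => DefN.all fun j =>
      DefN.imp (DefN.of2 Def2.eq (f i) (f j)) (DefN.const (i = j))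
  have h2 : DefN m fun V E a => ∀ i j : Fin n, i ≠ j → (E (a (f i)) (a (f j)) ↔ K i j) :=
    DefN.all fun i => DefN.all fun j =>
      DefN.imp (DefN.const (i ≠ j)) (DefN.iff (DefN.of2 Def2.arc (f i) (f j)) (DefN.const (K i j)))
  exact (h1.and h2).congr fun V E a => Iff.rfl

theorem DefN.touch {n m : ℕ} (f : Fin n → Fin m) (v : Fin m) :
    DefN m fun _ E a => Touch E (fun i => a (f i)) (a v) :=
  DefN.any fun i => (DefN.of2 Def2.eq v (f i)).or
    ((DefN.of2 Def2.arc v (f i)).or (DefN.of2 Def2.arc (f i) v))

theorem DefN.cut {n m : ℕ} (f : Fin n → Fin m) (v w : Fin m) :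
    DefN m fun _ E a => Cut E (fun i => a (f i)) (a v) (a w) :=
  (DefN.of2 Def2.arc v w).and ((DefN.touch f v).not.and (DefN.touch f w).not)

/-- Reachability-like relations evaluated after deleting the closed neighbourhood of an induced
copy of `K` are definable. -/
theorem Def2.cut {n : ℕ} (K : Fin n → Fin n → Prop)
    {P : ∀ V : Type, (V → V → Prop) → V → V → Prop} (hP : Def2 P) :
    Def2 fun V E x y => ∃ c : Fin n → V, IsCopy K E c ∧ P V (Cut E c) x y := by
  obtain ⟨φ, hφ⟩ := hP
  obtain ⟨ψ, hψ⟩ := DefN.cut (n := n) (m := n + 2) (fun i => i.castSucc.castSucc)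
    (Fin.last n).castSucc (Fin.last (n + 1))
  have h1 : DefN (2 + n) fun V E a => P V (Cut E (fun i => a (Fin.natAdd 2 i)))
      (a (Fin.castAdd n 0)) (a (Fin.castAdd n 1)) := by
    refine ⟨subE ψ φ (Fin.natAdd 2) (Fin.castAdd n), fun V E a => ?_⟩
    rw [sat_subE]
    have e1 : (fun x y => Sat (fun _ => E) ψ (ext (ext (a ∘ Fin.natAdd 2) x) y)) =
        Cut E (fun i => a (Fin.natAdd 2 i)) := by
      funext x y
      rw [hψ]
      simp only [ext_castSucc, ext_last]
      rfl
    have e2 : a ∘ Fin.castAdd n = pair (a (Fin.castAdd n 0)) (a (Fin.castAdd n 1)) := by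
      funext i
      fin_cases i <;> rfl
    rw [e1, e2]
    exact hφ V _ _ _
  have h2 : DefN 2 fun V E a => ∃ c : Fin n → V, IsCopy K E c ∧ P V (Cut E c) (a 0) (a 1) :=
    DefN.exBlock (P := fun V E a c => IsCopy K E c ∧ P V (Cut E c) (a 0) (a 1))
      ((DefN.isCopy K (Fin.natAdd 2)).and h1)
  exact DefN.to2 h2

end Pool.Agent.Lib.Pe46137A
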