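import Pool.Agent.Lib.Pe46137C.Conn

/-!
# Oriented graphs without an induced directed path on four vertices
-/

namespace Pool.Agent.Lib.Pe46137A

open Pool.Agent.Lib.Pe46137h7 Pool.Agent.Lib.Pe46137i Pool.Agent.Lib.Pe46137C

/-- An arc on a closed walk of length at most four. -/
def Short4 {V : Type} (E : V → V → Prop) (x y : V) : Prop :=
  E x y ∧ ∃ u v, (y = u ∨ E y u) ∧ (u = v ∨ E u v) ∧ E v x

theorem def_short4 : Def2 fun _ E => Short4 E := by
  have h1 : Def2 fun _ E x y => x = y ∨ E x y := Def2.eq.or Def2.arc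
  refine (Def2.arc.and ((h1.comp (h1.comp Def2.arc)).inv)).congr fun V E x y => ?_
  constructor
  · rintro ⟨h1, u, h2, v, h3, h4⟩
    exact ⟨h1, u, v, h2, h3, h4⟩
  · rintro ⟨h1, u, v, h2, h3, h4⟩
    exact ⟨h1, u, h2, v, h3, h4⟩

theorem Short4.reach {V : Type} {E : V → V → Prop} {x y : V} (h : Short4 E x y) :
    Reach E y x := by
  obtain ⟨_, u, v, h1, h2, h3⟩ := h
  have r1 : Reach E y u := by
    rcases h1 with rfl | h1
    · exact .refl
    · exact .single h1
  have r2 : Reach E u v := by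
    rcases h2 with rfl | h2
    · exact .refl
    · exact .single h2
  exact (r1.trans r2).tail h3

theorem hasInd_P4 {V : Type} {E : V → V → Prop} {a b c d : V}
    (hab : E a b) (hbc : E b c) (hcd : E c d) (hba : ¬ E b a) (hcb : ¬ E c b) (hdc : ¬ E d c)
    (hac : ¬ E a c) (hca : ¬ E c a) (hbd : ¬ E b d) (hdb : ¬ E d b) (had : ¬ E a d)
    (hda : ¬ E d a) : HasInd P4 E := by
  have nab : a ≠ b := fun e => hba (e ▸ hab)
  have nbc : b ≠ c := fun e => hcb (e ▸ hbc)
  have ncd : c ≠ d := fun e => hdc (e ▸ hcd)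
  have nac : a ≠ c := fun e => hcb (e ▸ hab)
  have nbd : b ≠ d := fun e => hdc (e ▸ hbc)
  have nad : a ≠ d := fun e => hdb (e ▸ hab)
  refine ⟨![a, b, c, d], ?_, ?_⟩
  · intro i j hij
    fin_cases i <;> fin_cases j <;> simp_all
  · intro i j hij
    fin_cases i <;> fin_cases j <;>
      first | exact absurd rfl hij | simp [P4, *]

theorem def_P4 : ReachDef fun _ E => Oriented E ∧ ¬ HasInd P4 E := by
  refine ReachDef.of (P := fun V E s t => s = t ∨ E s t ∨
    ∃ u, E s u ∧ ∃ v, Relation.ReflTransGen (Sym (Short4 E)) u v ∧ E v t)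
    (Def2.eq.or (Def2.arc.or (Def2.arc.comp (def_short4.stc.comp Def2.arc)))) ?_
  rintro V _ E ⟨hor, hP⟩ s t
  constructor
  · rintro (rfl | h | ⟨u, h1, v, h2, h3⟩)
    · exact .refl
    · exact .single h
    · refine (Relation.ReflTransGen.head h1 ?_).tail h3
      clear h1 h3
      induction h2 with
      | refl => exact .refl
      | tail _ h1 ih =>
        rcases h1 with h1 | h1
        · exact ih.tail h1.1
        · exact ih.trans h1.reach
  · intro h
    obtain ⟨n, p, h0, h1, h2, hmin⟩ := exists_shortest h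
    rcases Nat.eq_zero_or_pos n with rfl | hn
    · exact Or.inl (h0.symm.trans h1)
    obtain ⟨m, rfl⟩ := Nat.exists_eq_add_of_le' hn
    rcases Nat.eq_zero_or_pos m with rfl | hm
    · refine Or.inr (Or.inl ?_)
      rw [← h0, ← h1]
      exact h2 0 (by omega)
    refine Or.inr (Or.inr ⟨p 1, ?_, p m, ?_, ?_⟩)
    · rw [← h0]
      exact h2 0 (by omega)
    · have key : ∀ i, i + 1 ≤ m → Relation.ReflTransGen (Sym (Short4 E)) (p 1) (p (i + 1)) := by
        intro i
        induction i with
        | zero => intro _; exact .refl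
        | succ i ih =>
          intro hi
          refine (ih (by omega)).tail (Or.inl ⟨h2 (i + 1) (by omega), ?_⟩)
          have e1 := h2 i (by omega)
          have e2 := h2 (i + 1) (by omega)
          have e3 := h2 (i + 1 + 1) (by omega)
          have c1 : ¬ E (p i) (p (i + 1 + 1)) :=
            no_chord h0 h1 h2 hmin (by omega) (by omega)
          have c2 : ¬ E (p (i + 1)) (p (i + 1 + 1 + 1)) :=
            no_chord h0 h1 h2 hmin (by omega) (by omega)
          have c3 : ¬ E (p i) (p (i + 1 + 1 + 1)) :=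
            no_chord h0 h1 h2 hmin (by omega) (by omega)
          by_cases d1 : E (p (i + 1 + 1)) (p i)
          · exact ⟨p i, p i, Or.inr d1, Or.inl rfl, e1⟩
          by_cases d2 : E (p (i + 1 + 1 + 1)) (p (i + 1))
          · exact ⟨p (i + 1 + 1 + 1), p (i + 1 + 1 + 1), Or.inr e3, Or.inl rfl, d2⟩
          by_cases d3 : E (p (i + 1 + 1 + 1)) (p i)
          · exact ⟨p (i + 1 + 1 + 1), p i, Or.inr e3, Or.inr d3, e1⟩
          exact absurd (hasInd_P4 e1 e2 e3 (hor _ _ e1) (hor _ _ e2) (hor _ _ e3) c1 d1 c2 d2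
            c3 d3) hP
      obtain ⟨l, rfl⟩ := Nat.exists_eq_add_of_le' hm
      exact key l le_rfl
    · rw [← h1]
      exact h2 m (by omega)

end Pool.Agent.Lib.Pe46137A
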