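import Pool.Agent.Lib.Pe46137A.Logic
import Pool.Agent.Lib.Pe46137A.Exist

/-!
# Adding a fork to the forbidden digraph  (MODULE Pe46137A.Step, about 1.8 h)

Proof.  Let `P` be given by `Easy C`, `D = 2 a + 1`, `B = 2 a + 4`, `M = 5 a + 7`.
Definable relations (all `Def2` unless said otherwise):
* `S V E x y := x = y ∨ E x y ∨ ∃ c, IsCopy (Fork a) E c ∧ P V (Cut E c) x y` (`Def2.cut`);
* `Within (S V E) k`, `Within E k` for fixed `k` (lemma `Def2.within`, induction on `k`);
* avoiding walks (ternary, `DefN 3`, variables `u u' v`): `A 0 u u' v := v = u`,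
  `A (n + 1) u u' v := ∃ w, A n u u' w ∧ E w v ∧ ¬ Within (S V E) M u' v`;
* `Best u u' := E u u' ∧ ∀ v, A D u u' v → Within E (D - 1) u v`;
* `G p q t := Best p q ∧ ¬ Within E D p t` (ternary) and finally
  `Q V E s t := ∃ z, ReflTransGen (fun p q => G p q t ∨ G q p t) s z ∧ Within (S V E) B z t`
  (`DefN.stc` and `DefN.ex`; `Def2 P` and `DefN 2` are related by `DefN.of2`, `DefN.to2`).
Let `E` be acyclic with `C V (Cut E c)` for all induced forks `c`, `V` finite.  Then
`P V (Cut E c) x y ↔ Reach (Cut E c) x y`; so `S x y → Reach E x y`, and the hypotheses of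
`exists_best` hold for `S`.
(1) Invariance: if `G p q t` then `Reach E p t ↔ Reach E q t`.  `←`: `E p q`.  `→`: take a
shortest walk `w` from `p` to `t`, of length `n > D` (since `¬ Within E D p t`); the vertex
`v = w D` is not `Within E (D - 1) p v` (otherwise a shorter walk to `t`), so by `Best`
`¬ A D p q v`; as `w` is a walk of length `D` from `p` to `v`, some `w i`, `1 ≤ i ≤ D`, has
`Within S M q (w i)` (induction: `A i p q (w i)` for all `i ≤ D` otherwise); hence
`Reach E q (w i)`, and `w i` reaches `t`.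
(2) Soundness: if `Q s t` then `Reach E z t`, and by (1) all vertices of the chain reach `t`.
(3) Completeness: let `Reach E s t`; well-founded induction along `E` (acyclic, `V` finite:
the relation `fun y x => E x y` is well founded, e.g. `Finite.wellFounded_of_trans_of_irrefl`
for `TransGen`).  If `Within S B s t`, take `z = s`.  Otherwise `exists_best` gives `u'` with
`E s u'` hitting all geodesics of length `D` from `s`; then `Best s u'`: if `A D s u' v` and
`¬ Within E (D - 1) s v`, the walk `q 0 = s, …, q D = v` extracted from `A` is `Geo E s D q`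
(a shortcut to some `q i` would give one to `v`), so some `q j`, `1 ≤ j ≤ D`, has
`Within S M u' (q j)`, contradicting `A`.  Moreover `¬ Within E D s t` because `D ≤ B` and arcs
are `S`-steps.  So `G s u' t`, `Reach E u' t` by (1), and the induction hypothesis for `u'`
gives the chain.
-/

namespace Pool.Agent.Lib.Pe46137A

open Pool.Agent.Lib.Pe46137h7

namespace StepAux

theorem def2_within {R : ∀ V : Type, (V → V → Prop) → V → V → Prop} (h : Def2 R) (k : ℕ) :
    Def2 fun V E x y => Within (R V E) k x y := by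
  induction k with
  | zero => exact Def2.eq.congr fun V E x y => Iff.rfl
  | succ k ih => exact (ih.or (ih.comp h)).congr fun V E x y => Iff.rfl

/-- Walks `u = w 0, …, w n = v` with no relation `T u' (w i)`, `i ≥ 1`. -/
def Av {V : Type} (E T : V → V → Prop) : ℕ → V → V → V → Prop
  | 0, u, _, v => v = u
  | n + 1, u, u', v => ∃ w, Av E T n u u' w ∧ E w v ∧ ¬ T u' v

theorem def_av {T : ∀ V : Type, (V → V → Prop) → V → V → Prop} (h : Def2 T) (n : ℕ) :
    DefN 3 fun V E a => Av E (T V E) n (a 0) (a 1) (a 2) := by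
  induction n with
  | zero =>
    exact (DefN.of2 (n := 3) Def2.eq 2 0).congr fun V E a => Iff.rfl
  | succ n ih =>
    have h1 : DefN 4 fun V E a => Av E (T V E) n (a 0) (a 1) (a 3) ∧ E (a 3) (a 2) ∧
        ¬ T V E (a 1) (a 2) :=
      ((ih.rename (m := 4) ![0, 1, 3]).congr fun V E a => Iff.rfl).and
        ((DefN.of2 (n := 4) Def2.arc 3 2).and (DefN.of2 (n := 4) h 1 2).not)
    exact h1.ex.congr fun V E a => Iff.rfl

theorem Av.extract {V : Type} {E T : V → V → Prop} {u u' : V} : ∀ {n : ℕ} {v : V},
    Av E T n u u' v → ∃ q : ℕ → V, q 0 = u ∧ q n = v ∧ (∀ i < n, E (q i) (q (i + 1))) ∧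
      ∀ j, 1 ≤ j → j ≤ n → ¬ T u' (q j) := by
  intro n
  induction n with
  | zero =>
    intro v h
    exact ⟨fun _ => u, rfl, h.symm, fun i hi => absurd hi (Nat.not_lt_zero _),
      fun j h1 h2 => by omega⟩
  | succ n ih =>
    rintro v ⟨w, h1, h2, h3⟩
    obtain ⟨q, h4, h5, h6, h7⟩ := ih h1
    refine ⟨fun i => if i ≤ n then q i else v, by simp [h4], by simp, fun i hi => ?_,
      fun j hj1 hj2 => ?_⟩
    · rcases Nat.lt_or_ge i n with h | h
      · simp only [if_pos (show i ≤ n by omega), if_pos (show i + 1 ≤ n by omega)]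
        exact h6 i h
      · obtain rfl : i = n := by omega
        simp only [if_pos (le_refl i), if_neg (show ¬ i + 1 ≤ i by omega)]
        rw [h5]
        exact h2
    · rcases Nat.lt_or_ge n j with h | h
      · simp only [if_neg (show ¬ j ≤ n by omega)]
        exact h3
      · simp only [if_pos h]
        exact h7 j hj1 h

theorem Av.of_walk {V : Type} {E T : V → V → Prop} {u u' : V} {w : ℕ → V} (h0 : w 0 = u)
    {D : ℕ} (h1 : ∀ i < D, E (w i) (w (i + 1))) (h2 : ∀ j, 1 ≤ j → j ≤ D → ¬ T u' (w j)) :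
    ∀ i ≤ D, Av E T i u u' (w i) := by
  intro i
  induction i with
  | zero => intro _; exact h0
  | succ i ih => intro hi; exact ⟨w i, ih (by omega), h1 i (by omega), h2 _ (by omega) hi⟩

/-- `u'` is an out-neighbour of `u` close to all vertices at distance `D` from `u`. -/
def Best {V : Type} (E T : V → V → Prop) (D : ℕ) (u u' : V) : Prop :=
  E u u' ∧ ¬ ∃ v, Av E T D u u' v ∧ ¬ Within E (D - 1) u v

theorem def_best {T : ∀ V : Type, (V → V → Prop) → V → V → Prop} (h : Def2 T) (D : ℕ) :
    Def2 fun V E x y => Best E (T V E) D x y := by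
  have h1 : DefN 3 fun V E a => Av E (T V E) D (a 0) (a 1) (a 2) ∧
      ¬ Within E (D - 1) (a 0) (a 2) :=
    (def_av h D).and (DefN.of2 (n := 3) (def2_within Def2.arc (D - 1)) 0 2).not
  have h2 : DefN 2 fun V E a => ∃ v, Av E (T V E) D (a 0) (a 1) v ∧
      ¬ Within E (D - 1) (a 0) v := h1.ex.congr fun V E a => Iff.rfl
  exact Def2.arc.and h2.not.to2

/-- One link of the chain towards `t`. -/
def Link {V : Type} (E T : V → V → Prop) (D : ℕ) (t p q : V) : Prop :=
  Best E T D p q ∧ ¬ Within E D p t

/-- The formula. -/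
def Form {V : Type} (E S T : V → V → Prop) (D B : ℕ) (s t : V) : Prop :=
  ∃ z, Relation.ReflTransGen (fun p q => Link E T D t p q ∨ Link E T D t q p) s z ∧
    Within S B z t

theorem def_form {S T : ∀ V : Type, (V → V → Prop) → V → V → Prop} (hS : Def2 S)
    (hT : Def2 T) (D B : ℕ) : Def2 fun V E s t => Form E (S V E) (T V E) D B s t := by
  have h1 : DefN 5 fun V E a => Link E (T V E) D (a 1) (a 3) (a 4) :=
    (DefN.of2 (n := 5) (def_best hT D) 3 4).and
      (DefN.of2 (n := 5) (def2_within Def2.arc D) 3 1).not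
  have h2 : DefN 3 fun V E a => Relation.ReflTransGen
      (fun p q => Link E (T V E) D (a 1) p q ∨ Link E (T V E) D (a 1) q p) (a 0) (a 2) :=
    (DefN.stc (n := 3) h1 0 2).congr fun V E a => Iff.rfl
  have h3 : DefN 3 fun V E a => Relation.ReflTransGen
      (fun p q => Link E (T V E) D (a 1) p q ∨ Link E (T V E) D (a 1) q p) (a 0) (a 2) ∧
      Within (S V E) B (a 2) (a 1) := h2.and (DefN.of2 (n := 3) (def2_within hS B) 2 1)
  exact (h3.ex.congr fun V E a => Iff.rfl : DefN 2 fun V E a =>
    Form E (S V E) (T V E) D B (a 0) (a 1)).to2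

theorem walk_of_within {V : Type} {E : V → V → Prop} : ∀ {k : ℕ} {a b : V}, Within E k a b →
    ∃ m ≤ k, Walk E m a b := by
  intro k
  induction k with
  | zero => intro a b h; exact ⟨0, le_rfl, by rw [show a = b from h]; exact .nil _⟩
  | succ k ih =>
    intro a b h
    rcases h with h | ⟨c, h1, h2⟩
    · obtain ⟨m, hm, h3⟩ := ih h
      exact ⟨m, by omega, h3⟩
    · obtain ⟨m, hm, h3⟩ := ih h1
      exact ⟨m + 1, by omega, h3.append (.cons h2 (.nil _))⟩

theorem within_of_path {V : Type} {E : V → V → Prop} {q : ℕ → V} {n : ℕ}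
    (h : ∀ i < n, E (q i) (q (i + 1))) : ∀ d i, i + d ≤ n → Within E d (q i) (q (i + d)) := by
  intro d
  induction d with
  | zero => intro i _; rfl
  | succ d ih => intro i hi; exact (ih i (by omega)).tail (h (i + d) (by omega))

theorem within_mono {V : Type} {E S : V → V → Prop} (h : ∀ x y, E x y → S x y) :
    ∀ {k : ℕ} {a b : V}, Within E k a b → Within S k a b := by
  intro k
  induction k with
  | zero => intro a b h; exact h
  | succ k ih =>
    intro a b h'
    rcases h' with h' | ⟨c, h1, h2⟩
    · exact Or.inl (ih h')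
    · exact Or.inr ⟨c, ih h1, h _ _ h2⟩

theorem reach_mono {V : Type} {E S : V → V → Prop} (h : ∀ x y, S x y → Reach E x y)
    {x y : V} (h' : Reach S x y) : Reach E x y := by
  induction h' with
  | refl => exact .refl
  | tail _ h1 ih => exact ih.trans (h _ _ h1)

/-- Linked vertices reach `t` simultaneously. -/
theorem link_iff {V : Type} {E S : V → V → Prop} (hS : ∀ x y, S x y → Reach E x y)
    {D M : ℕ} (hD : 1 ≤ D) {p q t : V} (h : Link E (Within S M) D t p q) : Reach E p t ↔ Reach E q t := by
  obtain ⟨⟨h1, h2⟩, h3⟩ := h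
  refine ⟨fun hp => ?_, fun hq => .head h1 hq⟩
  obtain ⟨n, w, hw0, hwn, hw, hmin⟩ := exists_shortest hp
  have hpath := within_of_path hw
  have hn : D < n := by
    by_contra hn
    have h4 := hpath n 0 (by omega)
    rw [zero_add, hw0, hwn] at h4
    exact h3 (h4.mono (by omega))
  have h4 : ¬ Within E (D - 1) p (w D) := by
    intro h4
    obtain ⟨m, hm, h5⟩ := walk_of_within h4
    have h6 := hpath (n - D) D (by omega)
    rw [show D + (n - D) = n by omega, hwn] at h6
    obtain ⟨m', hm', h7⟩ := walk_of_within h6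
    have h8 := hmin _ (h5.append h7)
    omega
  have h5 : ¬ Av E (Within S M) D p q (w D) := fun h5 => h2 ⟨_, h5, h4⟩
  have h6 : ∃ j, 1 ≤ j ∧ j ≤ D ∧ Within S M q (w j) := by
    by_contra hcon
    push Not at hcon
    exact h5 (Av.of_walk hw0 (fun i hi => hw i (by omega)) hcon D le_rfl)
  obtain ⟨j, hj1, hj2, h7⟩ := h6
  have h8 := hpath (n - j) j (by omega)
  rw [show j + (n - j) = n by omega, hwn] at h8
  exact (reach_mono hS h7.reach).trans h8.reach

end StepAux

open StepAux

theorem Easy.fork {C : ∀ V : Type, (V → V → Prop) → Prop} (hC : Easy C) {a : ℕ} (ha : 1 ≤ a) :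
    Easy fun V E => Acyclic E ∧
      ∀ c : Fin (2 * a + 1) → V, IsCopy (Fork a) E c → C V (Cut E c) := by
  obtain ⟨P, hPdef, hP⟩ := hC
  have hSdef : Def2 fun V E x y => x = y ∨ (E x y ∨
      ∃ c : Fin (2 * a + 1) → V, IsCopy (Fork a) E c ∧ P V (Cut E c) x y) :=
    Def2.eq.or (Def2.arc.or (Def2.cut (Fork a) hPdef))
  have hTdef := def2_within hSdef (5 * a + 7)
  refine ⟨_, def_form hSdef hTdef (2 * a + 1) (2 * a + 4), ?_⟩
  rintro V _ E ⟨hE, hcut⟩ s t
  -- the relation `S`
  obtain ⟨S, hSe⟩ : ∃ S : V → V → Prop, S = fun x y => x = y ∨ (E x y ∨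
      ∃ c : Fin (2 * a + 1) → V, IsCopy (Fork a) E c ∧ P V (Cut E c) x y) := ⟨_, rfl⟩
  have hP' : ∀ c : Fin (2 * a + 1) → V, IsCopy (Fork a) E c → ∀ x y,
      P V (Cut E c) x y ↔ Reach (Cut E c) x y := fun c hc => hP V (Cut E c) (hcut c hc)
  have hrefl : ∀ x, S x x := fun x => by rw [hSe]; exact Or.inl rfl
  have harc : ∀ x y, E x y → S x y := fun x y h => by rw [hSe]; exact Or.inr (Or.inl h)
  have hcutS : ∀ c : Fin (2 * a + 1) → V, IsCopy (Fork a) E c →
      ∀ x y, Reach (Cut E c) x y → S x y := fun c hc x y h => by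
    rw [hSe]; exact Or.inr (Or.inr ⟨c, hc, (hP' c hc x y).2 h⟩)
  have hSreach : ∀ x y, S x y → Reach E x y := by
    intro x y h
    rw [hSe] at h
    rcases h with h | h | ⟨c, hc, h⟩
    · rw [h]
    · exact .single h
    · exact reach_mono (fun p q hpq => .single hpq.1) ((hP' c hc x y).1 h)
  change Form E _ _ _ _ s t ↔ _
  rw [← hSe]
  have hD : 1 ≤ 2 * a + 1 := by omega
  constructor
  · rintro ⟨z, hz, hzt⟩
    have h1 : Reach E z t := reach_mono hSreach hzt.reach
    induction hz using Relation.ReflTransGen.head_induction_on with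
    | refl => exact h1
    | head h2 _ ih =>
      rcases h2 with h2 | h2
      · exact (link_iff hSreach hD h2).2 ih
      · exact (link_iff hSreach hD h2).1 ih
  · have wf : WellFounded fun y x : V => Relation.TransGen E x y := by
      have h1 : IsTrans V fun y x : V => Relation.TransGen E x y :=
        ⟨fun x y z h1 h2 => h2.trans h1⟩
      have h2 : Std.Irrefl fun y x : V => Relation.TransGen E x y := ⟨fun x h => hE x h⟩
      exact Finite.wellFounded_of_trans_of_irrefl _
    intro hst
    induction s using wf.induction with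
    | _ s ih =>
      by_cases hno : Within S (2 * a + 4) s t
      · exact ⟨s, .refl, hno⟩
      · obtain ⟨u', hu1, hu2⟩ := exists_best hE ha hrefl harc hcutS hst hno
        have hbest : Best E (Within S (5 * a + 7)) (2 * a + 1) s u' := by
          refine ⟨hu1, ?_⟩
          rintro ⟨v, hv1, hv2⟩
          obtain ⟨q, hq0, hqD, hq, hqT⟩ := hv1.extract
          have hgeo : Geo E s (2 * a + 1) q := by
            refine ⟨hq0, hq, fun i hi k hk => ?_⟩
            by_contra hcon
            have h1 := within_of_path hq (2 * a + 1 - i) i (by omega)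
            rw [show i + (2 * a + 1 - i) = 2 * a + 1 by omega, hqD] at h1
            exact hv2 ((hk.trans h1).mono (by omega))
          obtain ⟨j, hj1, hj2, hj3⟩ := hu2 q hgeo
          exact hqT j hj1 hj2 hj3
        have hlink : Link E (Within S (5 * a + 7)) (2 * a + 1) t s u' :=
          ⟨hbest, fun h => hno ((within_mono harc h).mono (by omega))⟩
        have h1 : Reach E u' t := (link_iff hSreach hD hlink).1 hst
        obtain ⟨z, hz1, hz2⟩ := ih u' (.single hu1) h1
        exact ⟨z, .head (Or.inl hlink) hz1, hz2⟩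

end Pool.Agent.Lib.Pe46137A
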