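import Pool.Agent.Lib.Pe46137A.Glue
import Pool.Agent.Lib.Pe46137i.ToD

/-!
# A reduction to oriented graphs in which induced paths are short

Every vertex `v` becomes a directed triangle `(v,0) → (v,1) → (v,2) → (v,0)`; every arc `v → w`
becomes the arc `(v,2) → (w,0)`.
-/

namespace Pool.Agent.Lib.Pe46137A

open Pool.Agent.Lib.Pe46137h7 Pool.Agent.Lib.Pe46137i

/-- The arc formulas of the triangle reduction; only the vertices on the diagonal are used. -/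
def triArc : Fin 3 → Fin 3 → Fml OrdVoc 4
  | 0, 1 => .and (.eq 0 1) (.and (.eq 2 3) (.eq 0 2))
  | 1, 2 => .and (.eq 0 1) (.and (.eq 2 3) (.eq 0 2))
  | 2, 0 => .and (.eq 0 1) (.and (.eq 2 3) (.or (.eq 0 2) (.rel .arc 0 2)))
  | _, _ => .neg (.eq 0 0)

/-- The triangle reduction. -/
abbrev tri : Reduction where
  copies := 3
  arc := triArc
  src := diag
  tgt := diag
  srcCopy := 0
  tgtCopy := 0
  arc_fo := by
    intro i j
    fin_cases i <;> fin_cases j <;> simp [triArc, Fml.FirstOrder, Fml.or]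
  src_fo := by simp [Fml.FirstOrder]
  tgt_fo := by simp [Fml.FirstOrder]

section

variable {V : Type} [LinearOrder V] {E : V → V → Prop}

theorem tri_out_iff (p q : Fin 3 × V × V) : tri.out E p q ↔
    p.2.1 = p.2.2 ∧ q.2.1 = q.2.2 ∧ q.1 = p.1 + 1 ∧
      (p.2.1 = q.2.1 ∨ (p.1 = 2 ∧ E p.2.1 q.2.1)) := by
  obtain ⟨i, a, b⟩ := p
  obtain ⟨j, c, d⟩ := q
  unfold Reduction.out
  fin_cases i <;> fin_cases j <;>
    simp [triArc, Sat, sat_or, ordStr]

theorem tri_reach (s t : V) :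
    Relation.ReflTransGen (tri.out E) (0, s, s) (0, t, t) ↔ Relation.ReflTransGen E s t := by
  constructor
  · intro h
    have key : ∀ p q : Fin 3 × V × V, Relation.ReflTransGen (tri.out E) p q →
        Relation.ReflTransGen E p.2.1 q.2.1 := by
      intro p q h
      induction h with
      | refl => exact .refl
      | @tail b c _ h1 ih =>
        obtain ⟨_, _, _, h5 | h5⟩ := (tri_out_iff _ _).1 h1
        · rwa [← h5]
        · exact ih.tail h5.2
    exact key _ _ h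
  · intro h
    induction h with
    | refl => exact .refl
    | @tail b c _ h1 ih =>
      have e1 : tri.out E (0, b, b) (1, b, b) :=
        (tri_out_iff _ _).2 ⟨rfl, rfl, rfl, Or.inl rfl⟩
      have e2 : tri.out E (1, b, b) (2, b, b) :=
        (tri_out_iff _ _).2 ⟨rfl, rfl, rfl, Or.inl rfl⟩
      have e3 : tri.out E (2, b, b) (0, c, c) :=
        (tri_out_iff _ _).2 ⟨rfl, rfl, rfl, Or.inr ⟨rfl, h1⟩⟩
      exact ((ih.tail e1).tail e2).tail e3

end

/-- Digraphs with a cyclic colouring in three colours such that every directed path starting in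
colour `0` closes to a directed triangle and the vertices of colour `1` have only one
out-neighbour and only one in-neighbour. -/
def TriLike {W : Type} (F : W → W → Prop) : Prop :=
  ∃ col : W → Fin 3, (∀ p q, F p q → col q = col p + 1) ∧
    (∀ p q r, F p q → F q r → col p = 0 → F r p) ∧
    (∀ p q r, F p q → F p r → col p = 1 → q = r) ∧
    ∀ p q r, F p r → F q r → col r = 1 → p = q

theorem TriLike.oriented {W : Type} {F : W → W → Prop} (h : TriLike F) : Oriented F := by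
  obtain ⟨col, h1, -⟩ := h
  intro p q hpq hqp
  have h2 := h1 _ _ hpq
  have h3 := h1 _ _ hqp
  rw [h2] at h3
  have : ∀ a : Fin 3, a ≠ a + 1 + 1 := by decide
  exact this _ h3

theorem into_tri : Into tri fun _ F => TriLike F := by
  refine into_of rfl rfl (fun V _ _ E => ?_) fun V _ _ E s t => tri_reach s t
  refine ⟨fun p => p.1, fun p q h => ((tri_out_iff _ _).1 h).2.2.1, ?_, ?_, ?_⟩
  · intro p q r h1 h2 h3
    change p.1 = 0 at h3
    obtain ⟨a1, a2, a3, a4⟩ := (tri_out_iff _ _).1 h1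
    obtain ⟨b1, b2, b3, b4⟩ := (tri_out_iff _ _).1 h2
    rw [h3] at a3 a4
    rw [a3] at b3 b4
    refine (tri_out_iff _ _).2 ⟨b2, a1, by rw [b3, h3]; decide, Or.inl ?_⟩
    rcases a4 with a4 | a4
    · rcases b4 with b4 | b4
      · rw [a4, b4]
      · exact absurd b4.1 (by decide)
    · exact absurd a4.1 (by decide)
  · intro p q r h1 h2 h3
    change p.1 = 1 at h3
    obtain ⟨a1, a2, a3, a4⟩ := (tri_out_iff _ _).1 h1
    obtain ⟨b1, b2, b3, b4⟩ := (tri_out_iff _ _).1 h2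
    rw [h3] at a3 a4 b3 b4
    rcases a4 with a4 | a4
    · rcases b4 with b4 | b4
      · refine Prod.ext (a3.trans b3.symm) (Prod.ext (a4.symm.trans b4) ?_)
        rw [← a2, ← b2]
        exact a4.symm.trans b4
      · exact absurd b4.1 (by decide)
    · exact absurd a4.1 (by decide)
  · intro p q r h1 h2 h3
    change r.1 = 1 at h3
    obtain ⟨a1, a2, a3, a4⟩ := (tri_out_iff _ _).1 h1
    obtain ⟨b1, b2, b3, b4⟩ := (tri_out_iff _ _).1 h2
    have hp : p.1 = 0 := by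
      have : ∀ a b : Fin 3, b = a + 1 → b = 1 → a = 0 := by decide
      exact this _ _ a3 h3
    have hq : q.1 = 0 := by
      have : ∀ a b : Fin 3, b = a + 1 → b = 1 → a = 0 := by decide
      exact this _ _ b3 h3
    rcases a4 with a4 | a4
    · rcases b4 with b4 | b4
      · refine Prod.ext (hp.trans hq.symm) (Prod.ext (a4.trans b4.symm) ?_)
        rw [← a1, ← b1]
        exact a4.trans b4.symm
      · rw [hq] at b4
        exact absurd b4.1 (by decide)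
    · rw [hp] at a4
      exact absurd a4.1 (by decide)

/-! ### Patterns -/

/-- An induced directed path on five vertices. -/
def HasP5 {h : ℕ} (K : Fin h → Fin h → Prop) : Prop :=
  ∃ a b c d e, K a b ∧ K b c ∧ K c d ∧ K d e ∧ a ≠ b ∧ b ≠ c ∧ c ≠ d ∧ d ≠ e ∧
    a ≠ c ∧ b ≠ d ∧ c ≠ e ∧ ¬ K c a ∧ ¬ K d b ∧ ¬ K e c

/-- A directed path on four vertices and another out-neighbour of its first vertex. -/
def HasO31 {h : ℕ} (K : Fin h → Fin h → Prop) : Prop :=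
  ∃ a b c d e, K a b ∧ K b c ∧ K c d ∧ K a e ∧ a ≠ b ∧ b ≠ c ∧ c ≠ d ∧ a ≠ e ∧ e ≠ b ∧
    a ≠ c ∧ b ≠ d ∧ ¬ K c a ∧ ¬ K d b

/-- A directed path on four vertices and another in-neighbour of its last vertex. -/
def HasI31 {h : ℕ} (K : Fin h → Fin h → Prop) : Prop :=
  ∃ a b c d e, K a b ∧ K b c ∧ K c d ∧ K e d ∧ a ≠ b ∧ b ≠ c ∧ c ≠ d ∧ e ≠ d ∧ e ≠ c ∧
    a ≠ c ∧ b ≠ d ∧ ¬ K c a ∧ ¬ K d b

section

variable {W : Type} {F : W → W → Prop} {h : ℕ} {K : Fin h → Fin h → Prop}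

theorem TriLike.no_P5 (hF : TriLike F) (hK : HasP5 K) : ¬ HasInd K F := by
  rintro ⟨f, hf, hf2⟩
  obtain ⟨a, b, c, d, e, h1, h2, h3, h4, n1, n2, n3, n4, n5, n6, n7, m1, m2, m3⟩ := hK
  obtain ⟨col, k1, k2, -, -⟩ := hF
  rw [hf2 _ _ n1] at h1
  rw [hf2 _ _ n2] at h2
  rw [hf2 _ _ n3] at h3
  rw [hf2 _ _ n4] at h4
  rw [hf2 _ _ n5.symm] at m1
  rw [hf2 _ _ n6.symm] at m2
  rw [hf2 _ _ n7.symm] at m3
  have c1 := k1 _ _ h1
  have c2 := k1 _ _ h2
  have q1 : col (f a) ≠ 0 := fun q => m1 (k2 _ _ _ h1 h2 q)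
  have q2 : col (f b) ≠ 0 := fun q => m2 (k2 _ _ _ h2 h3 q)
  have q3 : col (f c) ≠ 0 := fun q => m3 (k2 _ _ _ h3 h4 q)
  rw [c2, c1] at q3
  rw [c1] at q2
  have : ∀ x : Fin 3, x ≠ 0 → x + 1 ≠ 0 → x + 1 + 1 ≠ 0 → False := by decide
  exact this _ q1 q2 q3

theorem TriLike.no_O31 (hF : TriLike F) (hK : HasO31 K) : ¬ HasInd K F := by
  rintro ⟨f, hf, hf2⟩
  obtain ⟨a, b, c, d, e, h1, h2, h3, h4, n1, n2, n3, n4, n5, n6, n7, m1, m2⟩ := hK
  obtain ⟨col, k1, k2, k3, -⟩ := hF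
  rw [hf2 _ _ n1] at h1
  rw [hf2 _ _ n2] at h2
  rw [hf2 _ _ n3] at h3
  rw [hf2 _ _ n4] at h4
  rw [hf2 _ _ n6.symm] at m1
  rw [hf2 _ _ n7.symm] at m2
  have c1 := k1 _ _ h1
  have q1 : col (f a) ≠ 0 := fun q => m1 (k2 _ _ _ h1 h2 q)
  have q2 : col (f b) ≠ 0 := fun q => m2 (k2 _ _ _ h2 h3 q)
  rw [c1] at q2
  have : ∀ x : Fin 3, x ≠ 0 → x + 1 ≠ 0 → x = 1 := by decide
  exact n5 (hf (k3 _ _ _ h4 h1 (this _ q1 q2)))

theorem TriLike.no_I31 (hF : TriLike F) (hK : HasI31 K) : ¬ HasInd K F := by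
  rintro ⟨f, hf, hf2⟩
  obtain ⟨a, b, c, d, e, h1, h2, h3, h4, n1, n2, n3, n4, n5, n6, n7, m1, m2⟩ := hK
  obtain ⟨col, k1, k2, -, k4⟩ := hF
  rw [hf2 _ _ n1] at h1
  rw [hf2 _ _ n2] at h2
  rw [hf2 _ _ n3] at h3
  rw [hf2 _ _ n4] at h4
  rw [hf2 _ _ n6.symm] at m1
  rw [hf2 _ _ n7.symm] at m2
  have c1 := k1 _ _ h1
  have c2 := k1 _ _ h2
  have c3 := k1 _ _ h3
  have q1 : col (f a) ≠ 0 := fun q => m1 (k2 _ _ _ h1 h2 q)
  have q2 : col (f b) ≠ 0 := fun q => m2 (k2 _ _ _ h2 h3 q)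
  rw [c1] at q2
  have : ∀ x : Fin 3, x ≠ 0 → x + 1 ≠ 0 → x + 1 + 1 + 1 = 1 := by decide
  exact n5 (hf (k4 _ _ _ h4 h3 (by rw [c3, c2, c1]; exact this _ q1 q2)))

end

/-- **Hardness on oriented graphs.** -/
theorem oriented_hard {h : ℕ} {K : Fin h → Fin h → Prop}
    (hK : ¬ HasSub (Irr K) Pe46137h9.Zig ∨ HasP5 K ∨ HasO31 K ∨ HasI31 K) :
    ∃ r : Pe46137h9.DReduction, r.Into fun _ F => Oriented F ∧ ¬ HasInd K F := by
  rcases hK with hK | hK
  · obtain ⟨r, hr⟩ := Pe46137h9.acyclic_hard hK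
    refine ⟨r, fun V _ _ E => ?_⟩
    obtain ⟨⟨h1, h2⟩, h3⟩ := hr V E
    refine ⟨⟨fun p q hpq hqp => ?_, h2⟩, h3⟩
    exact h1 p (.head hpq (.single hqp))
  · have h1 : Into tri fun _ F => Oriented F ∧ ¬ HasInd K F := by
      refine into_tri.mono fun W F hF => ⟨hF.oriented, ?_⟩
      rcases hK with hK | hK | hK
      · exact hF.no_P5 hK
      · exact hF.no_O31 hK
      · exact hF.no_I31 hK
    refine ⟨toD tri, h1.toD ?_⟩
    intro W W' F F' e he hF
    exact ⟨fun p q hpq hqp => hF.1 _ _ ((he _ _).1 hpq) ((he _ _).1 hqp),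
      fun h2 => hF.2 (Pe46137h9.hasInd_congr e he h2)⟩

end Pool.Agent.Lib.Pe46137A
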